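import Pool.Agent.H29.SB.Defs

/-!
# Stable bricks: modules, dimensions of `e N`, presentations
-/

set_option autoImplicit false
set_option linter.unusedSectionVars false

namespace Pool.Agent.H29.SB

open Module

section rep

variable {K : Type} [Field K] {A : Type} [Ring A] [Algebra K A] {d : ℕ}

/-- the module of a representation -/
def Md (_f : A →ₐ[K] Module.End K (Fin d → K)) : Type := Fin d → K

variable (f : A →ₐ[K] Module.End K (Fin d → K))

instance : AddCommGroup (Md f) := inferInstanceAs (AddCommGroup (Fin d → K))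
instance : Module K (Md f) := inferInstanceAs (Module K (Fin d → K))
instance : FiniteDimensional K (Md f) := inferInstanceAs (FiniteDimensional K (Fin d → K))
instance : Module A (Md f) := Module.compHom (Fin d → K) (f : A →+* Module.End K (Fin d → K))

lemma Md_smul (a : A) (v : Md f) : a • v = f a v := rfl

instance : IsScalarTower K A (Md f) := ⟨fun c a v => by
  rw [Md_smul, Md_smul, map_smul]
  rfl⟩

lemma finrank_Md : finrank K (Md f) = d := by
  have : finrank K (Md f) = finrank K (Fin d → K) := rfl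
  rw [this, finrank_fin_fun]

end rep

section dim

variable (K : Type) [Field K] {A : Type} [Ring A] [Algebra K A]
variable (N : Type) [AddCommGroup N] [Module K N] [Module A N] [IsScalarTower K A N]

/-- the dimension of `e N` -/
noncomputable def dimE (e : A) : ℕ := finrank K (LinearMap.range (Algebra.lsmul K K N e))

variable {N}

instance fdSub [FiniteDimensional K N] (W : Submodule A N) : FiniteDimensional K W :=
  Module.Finite.of_injective (W.subtype.restrictScalars K) W.injective_subtype

instance fdQuot [FiniteDimensional K N] (W : Submodule A N) : FiniteDimensional K (N ⧸ W) :=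
  Module.Finite.of_surjective (W.mkQ.restrictScalars K) W.mkQ_surjective

lemma dimE_congr {N' : Type} [AddCommGroup N'] [Module K N'] [Module A N'] [IsScalarTower K A N']
    (h : N ≃ₗ[A] N') (e : A) : dimE K N e = dimE K N' e := by
  unfold dimE
  have h1 : LinearMap.range (Algebra.lsmul K K N' e) =
      (LinearMap.range (Algebra.lsmul K K N e)).map (h.restrictScalars K).toLinearMap := by
    ext y
    simp only [LinearMap.mem_range, Submodule.mem_map, Algebra.lsmul_coe]
    constructor
    · rintro ⟨x, rfl⟩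
      refine ⟨e • h.symm x, ⟨h.symm x, rfl⟩, ?_⟩
      show h (e • h.symm x) = e • x
      rw [map_smul, LinearEquiv.apply_symm_apply]
    · rintro ⟨_, ⟨x, rfl⟩, rfl⟩
      exact ⟨h x, (map_smul h e x).symm⟩
  rw [h1]
  exact (LinearEquiv.finrank_map_eq (h.restrictScalars K) _).symm

lemma finrank_sub_quot [FiniteDimensional K N] (W : Submodule A N) :
    finrank K N = finrank K W + finrank K (N ⧸ W) := by
  have h1 := LinearMap.finrank_range_add_finrank_ker (W.mkQ.restrictScalars K)
  have h2 : LinearMap.range (W.mkQ.restrictScalars K) = ⊤ := by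
    rw [LinearMap.range_eq_top]
    exact W.mkQ_surjective
  rw [h2, finrank_top] at h1
  have h3 : finrank K (LinearMap.ker (W.mkQ.restrictScalars K)) = finrank K W := by
    have h4 : LinearMap.ker (W.mkQ.restrictScalars K) = W.restrictScalars K := by
      ext x
      simp
    rw [h4]
    rfl
  rw [h3] at h1
  omega

lemma dimE_add [FiniteDimensional K N] (W : Submodule A N) (e : A) (he : IsIdempotentElem e) :
    dimE K N e = dimE K W e + dimE K (N ⧸ W) e := by
  unfold dimE
  set R := LinearMap.range (Algebra.lsmul K K N e) with hR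
  set g : R →ₗ[K] (N ⧸ W) := (W.mkQ.restrictScalars K).comp R.subtype with hg
  have h1 := LinearMap.finrank_range_add_finrank_ker g
  have h2 : LinearMap.range g = LinearMap.range (Algebra.lsmul K K (N ⧸ W) e) := by
    ext y
    constructor
    · rintro ⟨⟨_, ⟨x, rfl⟩⟩, rfl⟩
      exact ⟨W.mkQ x, (map_smul W.mkQ e x).symm⟩
    · rintro ⟨z, rfl⟩
      obtain ⟨x, rfl⟩ := W.mkQ_surjective z
      exact ⟨⟨e • x, ⟨x, rfl⟩⟩, map_smul W.mkQ e x⟩
  have h3 : finrank K (LinearMap.ker g) = finrank K (LinearMap.range (Algebra.lsmul K K W e)) := by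
    have h4 : (LinearMap.ker g).map R.subtype =
        (LinearMap.range (Algebra.lsmul K K W e)).map (W.subtype.restrictScalars K) := by
      ext y
      simp only [Submodule.mem_map, LinearMap.mem_ker]
      constructor
      · rintro ⟨⟨_, ⟨x, rfl⟩⟩, hx, rfl⟩
        have hx' : e • x ∈ W := (Submodule.Quotient.mk_eq_zero W).1 hx
        refine ⟨e • (⟨e • x, hx'⟩ : W), ⟨⟨e • x, hx'⟩, rfl⟩, ?_⟩
        show e • e • x = e • x
        rw [smul_smul, he.eq]
      · rintro ⟨_, ⟨w, rfl⟩, rfl⟩
        refine ⟨⟨e • (w : N), ⟨w, rfl⟩⟩, ?_, rfl⟩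
        show W.mkQ (e • (w : N)) = 0
        rw [Submodule.mkQ_apply, Submodule.Quotient.mk_eq_zero]
        exact W.smul_mem e w.2
    have h5 := (Submodule.equivMapOfInjective R.subtype R.injective_subtype
      (LinearMap.ker g)).finrank_eq
    have h6 := (Submodule.equivMapOfInjective (W.subtype.restrictScalars K) W.injective_subtype
      (LinearMap.range (Algebra.lsmul K K W e))).finrank_eq
    rw [h5, h6, h4]
  rw [← h1, h2, h3, add_comm]

lemma dimE_le [FiniteDimensional K N] (e : A) : dimE K N e ≤ finrank K N :=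
  Submodule.finrank_le _

end dim

/-- a projective presentation of `M` -/
structure Pr (A : Type) [Ring A] (M : Type) [AddCommGroup M] [Module A M] where
  m : ℕ
  l : ℕ
  e : Fin m → A
  e' : Fin l → A
  x : Fin l → Fin m → A
  μ : Fin m → M
  he : ∀ i, IsIdempotentElem (e i)
  he' : ∀ j, IsIdempotentElem (e' j)
  hx : ∀ j i, e' j * x j i * e i = x j i
  hμ : ∀ i, e i • μ i = μ i
  gen : ∀ v : M, ∃ a : Fin m → A, ∑ i, a i • μ i = v
  rel0 : ∀ j, ∑ i, x j i • μ i = 0
  rel : ∀ a : Fin m → A, (∀ i, a i * e i = a i) → ∑ i, a i • μ i = 0 →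
      ∃ b : Fin l → A, ∀ i, a i = ∑ j, b j * x j i

section pres

variable (K : Type) [Field K] {A : Type} [Ring A] [Algebra K A]
variable {M : Type} [AddCommGroup M] [Module A M] (P : Pr A M)
variable (N : Type) [AddCommGroup N] [Module K N] [Module A N] [IsScalarTower K A N]

/-- the dimension of `Hom(P₀, N)` -/
noncomputable def th0 : ℕ := ∑ i, dimE K N (P.e i)

/-- the dimension of `Hom(P₁, N)` -/
noncomputable def th1 : ℕ := ∑ j, dimE K N (P.e' j)

lemma th0_add [FiniteDimensional K N] (W : Submodule A N) :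
    th0 K P N = th0 K P W + th0 K P (N ⧸ W) := by
  unfold th0
  rw [← Finset.sum_add_distrib]
  exact Finset.sum_congr rfl fun i _ => dimE_add K W _ (P.he i)

lemma th1_add [FiniteDimensional K N] (W : Submodule A N) :
    th1 K P N = th1 K P W + th1 K P (N ⧸ W) := by
  unfold th1
  rw [← Finset.sum_add_distrib]
  exact Finset.sum_congr rfl fun i _ => dimE_add K W _ (P.he' i)

/-- `Hom(P, N)` for a projective module given by idempotents -/
def fixed {n : ℕ} (e : Fin n → A) : Submodule K (Fin n → N) where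
  carrier := {v | ∀ i, e i • v i = v i}
  add_mem' := by
    intro a b ha hb i
    simp only [Pi.add_apply, smul_add, ha i, hb i]
  zero_mem' := by
    intro i
    simp
  smul_mem' := by
    intro c a ha i
    rw [Pi.smul_apply, smul_comm, ha i]

lemma finrank_fixed [FiniteDimensional K N] {n : ℕ} (e : Fin n → A)
    (he : ∀ i, IsIdempotentElem (e i)) : finrank K (fixed K N e) = ∑ i, dimE K N (e i) := by
  unfold dimE
  rw [← finrank_pi_fintype K (M := fun i => LinearMap.range (Algebra.lsmul K K N (e i)))]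
  refine LinearEquiv.finrank_eq {
    toFun := fun v i => ⟨v.1 i, ⟨v.1 i, v.2 i⟩⟩
    map_add' := fun v w => rfl
    map_smul' := fun c v => rfl
    invFun := fun v => ⟨fun i => (v i).1, fun i => ?_⟩
    left_inv := fun v => rfl
    right_inv := fun v => rfl }
  obtain ⟨y, hy⟩ := (v i).2
  change e i • ((v i).1 : N) = (v i).1
  rw [← hy]
  change e i • e i • y = e i • y
  rw [smul_smul, (he i).eq]

variable {N}

/-- the map `Hom(P₀, N) → Hom(P₁, N)` -/
def tm : (Fin P.m → N) →ₗ[K] (Fin P.l → N) where
  toFun v j := ∑ i, P.x j i • v i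
  map_add' v w := by
    funext j
    simp only [Pi.add_apply, smul_add, Finset.sum_add_distrib]
  map_smul' c v := by
    funext j
    simp only [Pi.smul_apply, RingHom.id_apply, Finset.smul_sum]
    exact Finset.sum_congr rfl fun i _ => smul_comm _ _ _

lemma tm_mem (v : Fin P.m → N) : tm K P v ∈ fixed K N P.e' := by
  intro j
  show P.e' j • ∑ i, P.x j i • v i = ∑ i, P.x j i • v i
  rw [Finset.smul_sum]
  refine Finset.sum_congr rfl fun i _ => ?_
  rw [smul_smul]
  congr 1
  rw [← P.hx j i, ← mul_assoc, ← mul_assoc, (P.he' j).eq]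

/-- the kernel of `Hom(P₀, N) → Hom(P₁, N)` is `Hom(M, N)` -/
lemma hom_of_ker (v : Fin P.m → N) (hv : v ∈ fixed K N P.e) (hk : tm K P v = 0) :
    ∃ h : M →ₗ[A] N, ∀ i, h (P.μ i) = v i := by
  classical
  set φ : (Fin P.m → A) →ₗ[A] M := Fintype.linearCombination A P.μ with hφ
  set ψ : (Fin P.m → A) →ₗ[A] N := Fintype.linearCombination A v with hψ
  have hφa : ∀ a, φ a = ∑ i, a i • P.μ i := fun a => rfl
  have hψa : ∀ a, ψ a = ∑ i, a i • v i := fun a => rfl
  have hsurj : Function.Surjective φ := fun y => by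
    obtain ⟨a, ha⟩ := P.gen y
    exact ⟨a, ha⟩
  have hle : LinearMap.ker φ ≤ LinearMap.ker ψ := by
    intro a ha
    rw [LinearMap.mem_ker, hφa] at ha
    rw [LinearMap.mem_ker, hψa]
    obtain ⟨b, hb⟩ := P.rel (fun i => a i * P.e i) (fun i => by rw [mul_assoc, (P.he i).eq]) (by
      rw [← ha]
      refine Finset.sum_congr rfl fun i _ => ?_
      rw [mul_smul, P.hμ])
    have h1 : ∀ i, a i • v i = (a i * P.e i) • v i := by
      intro i
      rw [mul_smul, hv i]
    have h2 : ∑ i, a i • v i = ∑ j, b j • ∑ i, P.x j i • v i := by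
      simp only [h1, hb, Finset.sum_smul, Finset.smul_sum, mul_smul]
      exact Finset.sum_comm
    rw [h2]
    refine Finset.sum_eq_zero fun j _ => ?_
    have h3 := congrFun hk j
    change ∑ i, P.x j i • v i = 0 at h3
    rw [h3, smul_zero]
  refine ⟨((LinearMap.ker φ).liftQ ψ hle).comp
    (LinearMap.quotKerEquivOfSurjective φ hsurj).symm.toLinearMap, fun i => ?_⟩
  have h4 : φ (Pi.single i 1) = P.μ i := by
    rw [hφa, Finset.sum_eq_single i]
    · simp
    · intro b _ hb
      rw [Pi.single_eq_of_ne hb, zero_smul]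
    · intro h
      exact absurd (Finset.mem_univ i) h
  have h5 : (LinearMap.quotKerEquivOfSurjective φ hsurj).symm (P.μ i) =
      Submodule.Quotient.mk (Pi.single i 1) := by
    rw [LinearEquiv.symm_apply_eq, ← h4]
    rfl
  rw [LinearMap.comp_apply, LinearEquiv.coe_coe, h5]
  show ψ (Pi.single i 1) = v i
  rw [hψa, Finset.sum_eq_single i]
  · simp
  · intro b _ hb
    rw [Pi.single_eq_of_ne hb, zero_smul]
  · intro h
    exact absurd (Finset.mem_univ i) h

lemma tm_inj (h0 : ∀ h : M →ₗ[A] N, h = 0) (v : Fin P.m → N) (hv : v ∈ fixed K N P.e)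
    (hk : tm K P v = 0) : v = 0 := by
  obtain ⟨h, hh⟩ := hom_of_ker K P v hv hk
  funext i
  rw [← hh i, h0 h]
  rfl

/-- the restricted map -/
noncomputable def tr : fixed K N P.e →ₗ[K] fixed K N P.e' :=
  (tm K P).restrict fun v _ => tm_mem K P v

lemma tr_inj (h0 : ∀ h : M →ₗ[A] N, h = 0) : Function.Injective (tr K P (N := N)) := by
  rw [← LinearMap.ker_eq_bot, LinearMap.ker_eq_bot']
  intro v hv
  apply Subtype.ext
  exact tm_inj K P h0 v.1 v.2 (congrArg Subtype.val hv)

lemma th_le [FiniteDimensional K N] (h0 : ∀ h : M →ₗ[A] N, h = 0) : th0 K P N ≤ th1 K P N := by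
  unfold th0 th1
  rw [← finrank_fixed K N P.e P.he, ← finrank_fixed K N P.e' P.he']
  exact LinearMap.finrank_le_finrank_of_injective (tr_inj K P h0)

lemma hom_quot [FiniteDimensional K N] (h0 : ∀ h : M →ₗ[A] N, h = 0) (W : Submodule A N)
    (hW : th0 K P W = th1 K P W) (h : M →ₗ[A] (N ⧸ W)) : h = 0 := by
  -- `Hom(M, W) = 0`
  have h0W : ∀ g : M →ₗ[A] W, g = 0 := by
    intro g
    have h1 := h0 (W.subtype.comp g)
    ext y
    have h2 := LinearMap.congr_fun h1 y
    simpa using h2
  have hsW : Function.Surjective (tr K P (N := W)) := by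
    apply (LinearMap.injective_iff_surjective_of_finrank_eq_finrank ?_).1 (tr_inj K P h0W)
    rw [finrank_fixed K W P.e P.he, finrank_fixed K W P.e' P.he']
    exact hW
  -- lift
  have hlift : ∀ i, ∃ n : N, P.e i • n = n ∧ W.mkQ n = h (P.μ i) := by
    intro i
    obtain ⟨n, hn⟩ := W.mkQ_surjective (h (P.μ i))
    refine ⟨P.e i • n, by rw [smul_smul, (P.he i).eq], ?_⟩
    rw [map_smul, hn, ← map_smul, P.hμ]
  choose n hn1 hn2 using hlift
  have hnW : ∀ j, ∑ i, P.x j i • n i ∈ W := by
    intro j
    rw [← Submodule.Quotient.mk_eq_zero, ← Submodule.mkQ_apply, map_sum]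
    simp only [map_smul, hn2]
    simp only [← map_smul]
    rw [← map_sum, P.rel0, map_zero]
  obtain ⟨w, hw⟩ := hsW ⟨fun j => ⟨∑ i, P.x j i • n i, hnW j⟩, fun j => Subtype.ext (by
    have := tm_mem K P n j
    exact this)⟩
  have hsub : (fun i => n i - (w.1 i : N)) = 0 := by
    apply tm_inj K P h0
    · intro i
      have h3 := congrArg (fun z : W => (z : N)) (w.2 i)
      simp only [Submodule.coe_smul] at h3
      rw [smul_sub, hn1, h3]
    · funext j
      have h4 := congrArg (fun z : fixed K W P.e' => ((z.1 j : W) : N)) hw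
      have h5 : ((tr K P w).1 j : W) = ∑ i, P.x j i • w.1 i := rfl
      simp only [h5, Submodule.coe_sum, Submodule.coe_smul] at h4
      show ∑ i, P.x j i • (n i - (w.1 i : N)) = 0
      simp only [smul_sub, Finset.sum_sub_distrib]
      rw [h4, sub_self]
  have hz : ∀ i, h (P.μ i) = 0 := by
    intro i
    have h6 : n i = w.1 i := sub_eq_zero.1 (congrFun hsub i)
    rw [← hn2, h6, Submodule.mkQ_apply, Submodule.Quotient.mk_eq_zero]
    exact (w.1 i).2
  ext y
  obtain ⟨a, rfl⟩ := P.gen y
  rw [map_sum]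
  simp only [map_smul, hz, smul_zero, Finset.sum_const_zero, LinearMap.zero_apply]

end pres

end Pool.Agent.H29.SB
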