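import Mathlib

/-!
# Stable bricks: the definitions used in the statement of the hand-in
-/

set_option autoImplicit false

open Matrix

namespace Pool.Agent.H29.SB.Spec

/-- the `A`-module structures on `K ^ d` -/
def Rep (K : Type) [Field K] (A : Type) [Ring A] [Algebra K A] (d : ℕ) : Type :=
  A →ₐ[K] Module.End K (Fin d → K)

/-- the linear map by which `a` acts -/
def op {K : Type} [Field K] {A : Type} [Ring A] [Algebra K A] {d : ℕ} (f : Rep K A d) (a : A) :
    (Fin d → K) →ₗ[K] (Fin d → K) :=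
  (show A →ₐ[K] Module.End K (Fin d → K) from f) a

section
variable {K : Type} [Field K] {A : Type} [Ring A] [Algebra K A] {d : ℕ}

/-- `f` and `g` are isomorphic -/
def Iso (f g : Rep K A d) : Prop :=
  ∃ h : (Fin d → K) ≃ₗ[K] (Fin d → K), ∀ (a : A) (v : Fin d → K), h (op f a v) = op g a (h v)

/-- brick: all endomorphisms are scalars -/
def Brick (f : Rep K A d) : Prop :=
  ∀ φ : (Fin d → K) →ₗ[K] (Fin d → K), (∀ (a : A) (v : Fin d → K), φ (op f a v) = op f a (φ v)) →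
    ∃ c : K, ∀ v : Fin d → K, φ v = c • v

/-- the matrix of the action of `a` -/
noncomputable def mat (f : Rep K A d) (a : A) : Matrix (Fin d) (Fin d) K :=
  LinearMap.toMatrix' (op f a)

/-- the dual module, over the opposite algebra: the transposed matrices -/
noncomputable def matT (f : Rep K A d) (a : Aᵐᵒᵖ) : Matrix (Fin d) (Fin d) K :=
  (mat f a.unop)ᵀ

/-- the dimension of `a W` -/
noncomputable def dm (f : Rep K A d) (a : A) (W : Submodule K (Fin d → K)) : ℤ :=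
  (Module.finrank K (W.map (op f a)) : ℤ)

/-- `W` is a submodule -/
def Inv (f : Rep K A d) (W : Submodule K (Fin d → K)) : Prop :=
  ∀ a : A, ∀ v ∈ W, op f a v ∈ W

end

/-- `E (M, M) ≤ 1` for the module `M = K ^ d` over the ring `R` given by the matrices `ρ a`:
`M` has a projective presentation `⊕ R e'_j → ⊕ R e_i → M → 0`, given by the matrix `x` and the
generators `μ_i` of `M`, with `dim Hom(⊕ R e'_j, M) ≤ dim Hom(⊕ R e_i, M)`. -/
def ELe {K : Type} [Field K] {d : ℕ} {R : Type} [Ring R] (ρ : R → Matrix (Fin d) (Fin d) K) :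
    Prop :=
  ∃ (m l : ℕ) (e : Fin m → R) (e' : Fin l → R) (x : Fin l → Fin m → R) (μ : Fin m → Fin d → K),
    (∀ i, e i * e i = e i) ∧ (∀ j, e' j * e' j = e' j) ∧
    (∀ j i, e' j * x j i * e i = x j i) ∧ (∀ i, ρ (e i) *ᵥ μ i = μ i) ∧
    (∀ v : Fin d → K, ∃ a : Fin m → R, ∑ i, ρ (a i) *ᵥ μ i = v) ∧
    (∀ j, ∑ i, ρ (x j i) *ᵥ μ i = 0) ∧
    (∀ a : Fin m → R, (∀ i, a i * e i = a i) → ∑ i, ρ (a i) *ᵥ μ i = 0 →
      ∃ b : Fin l → R, ∀ i, a i = ∑ j, b j * x j i) ∧
    ∑ j, (ρ (e' j)).rank ≤ ∑ i, (ρ (e i)).rank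

/-- there are infinitely many pairwise non-isomorphic bricks of dimension `d` -/
def ManyBricks (K : Type) [Field K] (A : Type) [Ring A] [Algebra K A] (d : ℕ) : Prop :=
  ∃ f : ℕ → Rep K A d, (∀ i j : ℕ, i ≠ j → ¬ Iso (f i) (f j)) ∧ ∀ i : ℕ, Brick (f i)

/-- there are a weight `θ = ∑ c_j [A e_j]` and infinitely many pairwise non-isomorphic
`θ`-stable modules of one dimension (the conclusion of the stable brick conjecture) -/
def StableFamily (K : Type) [Field K] (A : Type) [Ring A] [Algebra K A] : Prop :=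
  ∃ (m : ℕ) (e : Fin m → A) (c : Fin m → ℤ), (∀ j, e j * e j = e j) ∧
    ∃ d : ℕ, ∃ f : ℕ → Rep K A d, (∀ i j : ℕ, i ≠ j → ¬ Iso (f i) (f j)) ∧
      ∀ i : ℕ, ∑ j : Fin m, c j * dm (f i) (e j) ⊤ = 0 ∧
        ∀ W : Submodule K (Fin d → K), Inv (f i) W → W ≠ ⊥ → W ≠ ⊤ →
          ∑ j : Fin m, c j * dm (f i) (e j) W < 0

end Pool.Agent.H29.SB.Spec
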