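import Pool.Agent.H29.SB.Quot
import Pool.Agent.H29.SB.Spec

/-!
# Stable bricks: comparison of the definitions
-/

set_option autoImplicit false

open Matrix

namespace Pool.Agent.H29.SB.Bridge

variable {K : Type} [Field K] {A : Type} [Ring A] [Algebra K A] {d : ℕ}

theorem brick_iff (f : A →ₐ[K] Module.End K (Fin d → K)) :
    Spec.Brick (K := K) (A := A) f ↔ Brick f := by
  constructor
  · intro h φ hφ
    obtain ⟨c, hc⟩ := h φ (fun a v => DFunLike.congr_fun (hφ a) v)
    refine ⟨c, ?_⟩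
    ext1
    ext1
    simp [hc]
  · intro h φ hφ
    obtain ⟨c, hc⟩ := h φ (fun a => LinearMap.ext fun v => hφ a v)
    refine ⟨c, fun v => ?_⟩
    rw [hc]
    rfl

theorem manyBricks_iff : Spec.ManyBricks K A d ↔ ManyBricks K A d := by
  constructor
  · rintro ⟨f, h1, h2⟩
    exact ⟨f, h1, fun i => (brick_iff _).1 (h2 i)⟩
  · rintro ⟨f, h1, h2⟩
    exact ⟨f, h1, fun i => (brick_iff _).2 (h2 i)⟩

theorem ele_of {ρ : A → Matrix (Fin d) (Fin d) K} {g : A →ₐ[K] Module.End K (Fin d → K)}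
    (hρ : ∀ a v, ρ a *ᵥ v = g a v) (h : Spec.ELe ρ) : ELe g := by
  have hr : ∀ a, (ρ a).rank = Module.finrank K (LinearMap.range (g a)) := by
    intro a
    have : (ρ a).mulVecLin = g a := LinearMap.ext fun v => hρ a v
    rw [Matrix.rank, this]
  obtain ⟨m, l, e, e', x, μ, h1, h2, h3, h4, h5, h6, h7, h8⟩ := h
  refine ⟨m, l, e, e', x, μ, h1, h2, h3, fun i => ?_, fun v => ?_, fun j => ?_,
    fun a ha ha' => ?_, ?_⟩
  · rw [← hρ]; exact h4 i
  · obtain ⟨a, ha⟩ := h5 v
    refine ⟨a, ?_⟩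
    simp only [← hρ]
    exact ha
  · simp only [← hρ]
    exact h6 j
  · simp only [← hρ] at ha'
    exact h7 a ha ha'
  · simp only [← hr]
    exact h8

theorem ele_mat (f : A →ₐ[K] Module.End K (Fin d → K))
    (h : Spec.ELe (Spec.mat (K := K) (A := A) f)) : ELe f := by
  refine ele_of (fun a v => ?_) h
  exact LinearMap.toMatrix'_mulVec (f a) v

theorem ele_matT (f : A →ₐ[K] Module.End K (Fin d → K))
    (h : Spec.ELe (Spec.matT (K := K) (A := A) f)) : ELe (dual f) := by
  refine ele_of (fun a v => ?_) h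
  exact (Matrix.toLin'_apply _ v).symm

theorem stableFamily_of (h : StableFamily K A) : Spec.StableFamily K A := h

/-- the theorem in terms of the definitions of `Spec` -/
theorem main [IsAlgClosed K] [FiniteDimensional K A] {B : Type} [Ring B] [Algebra K B]
    (π : A →ₐ[K] B) (hπ : Function.Surjective π) (f : ℕ → Spec.Rep K B d)
    (hf : ∀ i j : ℕ, i ≠ j → ¬ Spec.Iso (f i) (f j)) (hb : ∀ i : ℕ, Spec.Brick (f i))
    (hE : ∀ i : ℕ, Spec.ELe (Spec.mat (f i)) ∨ Spec.ELe (Spec.matT (f i)))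
    (hmin : ∀ d' < d, ¬ Spec.ManyBricks K B d') : Spec.StableFamily K A :=
  stableFamily_of (main_quot π hπ f hf (fun i => (brick_iff _).1 (hb i))
    (fun i => (hE i).imp (ele_mat _) (ele_matT _))
    (fun d' hd' h => hmin d' hd' (manyBricks_iff.2 h)))

end Pool.Agent.H29.SB.Bridge
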