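import Pool.Agent.H29.SB.Main

/-!
# Stable bricks: the core of the proof
-/

set_option autoImplicit false
set_option linter.unusedSectionVars false

namespace Pool.Agent.H29.SB

open Module

section

variable {K : Type} [Field K] [IsAlgClosed K] {A : Type} [Ring A] [Algebra K A] {d : ℕ}

/-- `B` is a quotient of the module of `f` -/
def Quo (R : Reps K A d) (f : A →ₐ[K] Module.End K (Fin d → K)) : Set R.S :=
  {s | 0 < R.n s ∧ ∃ φ : Md f →ₗ[A] Md (R.g s), Function.Surjective φ}

lemma hom_zero (R : Reps K A d) {f g : A →ₐ[K] Module.End K (Fin d → K)} (hg : Brick g)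
    (hfg : ¬ Iso f g) (hq : Quo R f = Quo R g) (h : Md f →ₗ[A] Md g) : h = 0 := by
  by_contra hne
  have hXd : finrank K (LinearMap.range h) ≤ d := by
    have := Submodule.finrank_le ((LinearMap.range h).restrictScalars K)
    rw [finrank_Md] at this
    exact this
  rcases hXd.lt_or_eq with hlt | heq
  · have hnt : Nontrivial (LinearMap.range h) := by
      rw [Submodule.nontrivial_iff_ne_bot]
      exact fun h' => hne (LinearMap.range_eq_bot.1 h')
    obtain ⟨B, hB, hBb, φ, hφ⟩ := exists_brick (K := K) (A := A) (LinearMap.range h)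
    have hBle : finrank K B ≤ finrank K (LinearMap.range h) :=
      Submodule.finrank_le (B.restrictScalars K)
    obtain ⟨s, ⟨e⟩⟩ := R.all B hBb (by omega)
    have hBnt : Nontrivial B := by
      rw [Submodule.nontrivial_iff_ne_bot]
      exact hB
    have hns : R.n s = finrank K B := by
      rw [← finrank_Md (R.g s)]
      exact (e.restrictScalars K).finrank_eq
    have hBpos : 0 < finrank K B := finrank_pos
    have hs : s ∈ Quo R f := by
      refine ⟨by omega, (e.symm.toLinearMap.comp φ).comp h.rangeRestrict, ?_⟩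
      exact (e.symm.surjective.comp hφ).comp (LinearMap.surjective_rangeRestrict h)
    rw [hq] at hs
    obtain ⟨-, ψ, hψ⟩ := hs
    set θ : Md g →ₗ[A] Md g :=
      ((LinearMap.range h).subtype.comp (B.subtype.comp e.toLinearMap)).comp ψ with hθ
    have hinj : Function.Injective
        ((LinearMap.range h).subtype.comp (B.subtype.comp e.toLinearMap)) :=
      ((LinearMap.range h).injective_subtype.comp B.injective_subtype).comp e.injective
    have hθ0 : θ ≠ 0 := by
      intro h0
      obtain ⟨y, hy⟩ := exists_ne (0 : B)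
      obtain ⟨x, hx⟩ := hψ (e.symm y)
      have h1 := LinearMap.congr_fun h0 x
      rw [hθ, LinearMap.comp_apply, hx, LinearMap.zero_apply] at h1
      have h2 := hinj (h1.trans (map_zero _).symm)
      rw [LinearEquiv.map_eq_zero_iff] at h2
      exact hy h2
    have hθi : Function.Injective θ := (brick_iff.1 hg).injective hθ0
    have hψi : Function.Injective ψ := by
      intro x y hxy
      apply hθi
      rw [hθ, LinearMap.comp_apply, LinearMap.comp_apply, hxy]
      rfl
    have h3 : finrank K (Md g) ≤ finrank K (Md (R.g s)) :=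
      LinearMap.finrank_le_finrank_of_injective (f := ψ.restrictScalars K) hψi
    rw [finrank_Md, finrank_Md] at h3
    omega
  · apply hfg
    rw [iso_iff]
    have hsurj : Function.Surjective (h.restrictScalars K) := by
      have h1 : (LinearMap.range h).restrictScalars K = ⊤ := by
        apply Submodule.eq_top_of_finrank_eq
        rw [finrank_Md]
        exact heq
      intro y
      have h2 : y ∈ (LinearMap.range h).restrictScalars K := by
        rw [h1]
        exact Submodule.mem_top
      exact h2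
    have hinj : Function.Injective (h.restrictScalars K) :=
      (LinearMap.injective_iff_surjective_of_finrank_eq_finrank
        ((finrank_Md f).trans (finrank_Md g).symm)).2 hsurj
    exact ⟨LinearEquiv.ofBijective h ⟨hinj, hsurj⟩⟩

/-- the core: all modules non simple -/
lemma core (f : ℕ → (A →ₐ[K] Module.End K (Fin d → K)))
    (hf : ∀ i j, i ≠ j → ¬ Iso (f i) (f j)) (hb : ∀ i, Brick (f i)) (hE : ∀ i, ELe (f i))
    (hmin : ∀ d' < d, ¬ ManyBricks K A d') (hns : ∀ i, ¬ IsSimpleModule A (Md (f i))) :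
    StableFamily K A := by
  classical
  obtain ⟨R⟩ := exists_reps hmin
  -- `d` is positive
  have hd : 0 < d := by
    rcases Nat.eq_zero_or_pos d with h0 | h0
    · exfalso
      subst h0
      apply hf 0 1 (by norm_num)
      refine ⟨LinearEquiv.refl K _, fun a v => ?_⟩
      exact Subsingleton.elim _ _
    · exact h0
  have hnt : ∀ i, Nontrivial (Md (f i)) := fun i =>
    Module.nontrivial_of_finrank_pos (R := K) (by rw [finrank_Md]; exact hd)
  have hfd : ∀ i, FiniteDimensional K (Md (f i)) := fun i => inferInstance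
  -- vectors
  have hcomp : ∀ i, ∃ v, Comp R (Md (f i)) v := by
    intro i
    have hex : ∃ W : Submodule A (Md (f i)), W ≠ ⊥ ∧ W ≠ ⊤ := by
      by_contra hno
      push Not at hno
      apply hns i
      have : IsSimpleOrder (Submodule A (Md (f i))) := by
        refine { toNontrivial := inferInstance, eq_bot_or_eq_top := fun W => ?_ }
        by_cases h : W = ⊥
        · exact Or.inl h
        · exact Or.inr (hno W h)
      exact ⟨⟩
    obtain ⟨W, hW1, hW2⟩ := hex
    have hsum := finrank_sub_quot K W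
    rw [finrank_Md] at hsum
    have hWnt : Nontrivial W := by
      rw [Submodule.nontrivial_iff_ne_bot]
      exact hW1
    have hQnt : Nontrivial (Md (f i) ⧸ W) := Submodule.Quotient.nontrivial_iff.2 hW2
    have h1 : 0 < finrank K W := finrank_pos
    have h2 : 0 < finrank K (Md (f i) ⧸ W) := finrank_pos
    obtain ⟨v, hv⟩ := exists_comp R (finrank K W) (by omega) W rfl
    obtain ⟨v', hv'⟩ := exists_comp R (finrank K (Md (f i) ⧸ W)) (by omega) (Md (f i) ⧸ W) rfl
    exact ⟨_, exists_comp_of_sub R W hv hv'⟩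
  choose v hv using hcomp
  have hvd : ∀ i s, v i s < d + 1 := by
    intro i s
    have := (hv i).1 s
    rw [finrank_Md] at this
    omega
  choose P hP using fun i => exists_pr (hE i)
  -- pigeonhole
  let Φ : ℕ → Set R.S × (R.S → Fin (d + 1)) × Set (R.S → Fin (d + 1)) := fun i =>
    (Quo R (f i), fun s => ⟨v i s, hvd i s⟩,
      {w | ∑ s, ((w s : ℕ) : ℤ) * th K (P i) (Md (R.g s)) = 0})
  obtain ⟨y, hy⟩ := Finite.exists_infinite_fiber Φ
  have hyinf : (Φ ⁻¹' {y}).Infinite := Set.infinite_coe_iff.1 hy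
  have hI1 : ∀ i ∈ Φ ⁻¹' {y}, ∀ j ∈ Φ ⁻¹' {y}, Quo R (f i) = Quo R (f j) := by
    intro i hi j hj
    have h1 : Φ i = Φ j := hi.trans hj.symm
    exact congrArg Prod.fst h1
  have hI2 : ∀ i ∈ Φ ⁻¹' {y}, ∀ j ∈ Φ ⁻¹' {y}, v i = v j := by
    intro i hi j hj
    have h1 : Φ i = Φ j := hi.trans hj.symm
    have h2 := congrArg (fun z => z.2.1) h1
    funext s
    have h3 := congrFun h2 s
    exact congrArg Fin.val h3
  have hI3 : ∀ i ∈ Φ ⁻¹' {y}, ∀ j ∈ Φ ⁻¹' {y}, ∀ w : R.S → ℕ, (∀ s, w s < d + 1) →
      ∑ s, (w s : ℤ) * th K (P i) (Md (R.g s)) = 0 →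
      ∑ s, (w s : ℤ) * th K (P j) (Md (R.g s)) = 0 := by
    intro i hi j hj w hw h0
    have h1 : Φ i = Φ j := hi.trans hj.symm
    have h2 := congrArg (fun z => z.2.2) h1
    have h3 : (fun s => (⟨w s, hw s⟩ : Fin (d + 1))) ∈ (Φ i).2.2 := h0
    have h4 : (fun s => (⟨w s, hw s⟩ : Fin (d + 1))) ∈ (Φ j).2.2 := by
      rw [← show (Φ i).2.2 = (Φ j).2.2 from h2]
      exact h3
    exact h4
  have hhom : ∀ i ∈ Φ ⁻¹' {y}, ∀ j ∈ Φ ⁻¹' {y}, i ≠ j → ∀ h : Md (f i) →ₗ[A] Md (f j), h = 0 :=
    fun i hi j hj hij h => hom_zero R (hb j) (hf i j hij) (hI1 i hi j hj) h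
  obtain ⟨i0, hi0⟩ := hyinf.nonempty
  -- the weight vanishes on the family
  have hth : ∀ j ∈ Φ ⁻¹' {y}, j ≠ i0 → th K (P i0) (Md (f j)) = 0 := by
    intro j hj hne
    have h1 : th K (P i0) (Md (f j)) = th K (P i0) (Md (f i0)) := by
      rw [th_comp (P i0) R (hv j), th_comp (P i0) R (hv i0), hI2 j hj i0 hi0]
    have h2 := hP i0
    have h3 := th_nonpos (K := K) (P i0) (hhom i0 hi0 j hj hne.symm)
    linarith
  -- maximal submodules
  have hmax : ∀ j, ∃ N : Submodule A (Md (f j)), (N ≠ ⊤ ∧ th K (P i0) N = 0) ∧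
      ∀ N' : Submodule A (Md (f j)), N < N' → N' ≠ ⊤ → th K (P i0) N' ≠ 0 := by
    intro j
    have hnoeth : IsNoetherian A (Md (f j)) := isNoetherian_of_tower K inferInstance
    have hwf : WellFounded ((· > ·) : Submodule A (Md (f j)) → Submodule A (Md (f j)) → Prop) :=
      wellFounded_gt
    obtain ⟨N, hN, hN'⟩ := hwf.has_min {N : Submodule A (Md (f j)) | N ≠ ⊤ ∧ th K (P i0) N = 0}
      ⟨⊥, bot_ne_top, th_bot (P i0)⟩
    exact ⟨N, hN, fun N' hlt hne h0 => hN' N' ⟨hne, h0⟩ hlt⟩
  choose N hN hNmax using hmax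
  -- properties of the quotients
  have hB0 : ∀ j ∈ Φ ⁻¹' {y}, j ≠ i0 → th K (P i0) (Md (f j) ⧸ N j) = 0 := by
    intro j hj hne
    have h1 := th_add (K := K) (P i0) (N j)
    rw [hth j hj hne, (hN j).2] at h1
    linarith
  have hBs : ∀ j ∈ Φ ⁻¹' {y}, j ≠ i0 → ∀ V : Submodule A (Md (f j) ⧸ N j), V ≠ ⊥ → V ≠ ⊤ →
      th K (P i0) V < 0 := by
    intro j hj hne V hV1 hV2
    rw [th_quot_sub, (hN j).2, sub_zero]
    have hle : N j ≤ V.comap (N j).mkQ := by
      intro x hx
      rw [Submodule.mem_comap, Submodule.mkQ_apply, (Submodule.Quotient.mk_eq_zero _).2 hx]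
      exact V.zero_mem
    have hmc : (V.comap (N j).mkQ).map (N j).mkQ = V :=
      Submodule.map_comap_eq_of_surjective (N j).mkQ_surjective V
    have hlt : N j < V.comap (N j).mkQ := by
      refine lt_of_le_of_ne hle fun h => hV1 ?_
      rw [← hmc, ← h, Submodule.mkQ_map_self]
    have htop : V.comap (N j).mkQ ≠ ⊤ := by
      intro h
      apply hV2
      rw [← hmc, h, Submodule.map_top, Submodule.range_mkQ]
    have h1 := hNmax j _ hlt htop
    have h2 : th K (P i0) (V.comap (N j).mkQ) ≤ 0 := by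
      refine th_nonpos (K := K) (P i0) fun h => ?_
      have h3 := hhom i0 hi0 j hj hne.symm ((V.comap (N j).mkQ).subtype.comp h)
      ext x
      have h4 := LinearMap.congr_fun h3 x
      exact h4
    omega
  have hBi : ∀ i ∈ Φ ⁻¹' {y}, i ≠ i0 → ∀ j ∈ Φ ⁻¹' {y}, j ≠ i0 → i ≠ j →
      IsEmpty ((Md (f i) ⧸ N i) ≃ₗ[A] (Md (f j) ⧸ N j)) := by
    intro i hi hi' j hj hj' hij
    refine ⟨fun e => ?_⟩
    have hlt : finrank K (N j) < d := by
      have h1 : (N j).restrictScalars K < ⊤ := by
        rw [lt_top_iff_ne_top]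
        intro h
        apply (hN j).1
        rw [eq_top_iff]
        intro x _
        have h2 : x ∈ (N j).restrictScalars K := by
          rw [h]
          exact Submodule.mem_top
        exact h2
      have h2 := Submodule.finrank_lt h1.ne
      rw [finrank_Md] at h2
      exact h2
    obtain ⟨w, hw⟩ := exists_comp R (finrank K (N j)) hlt (N j) rfl
    have h1 : th K (P i) (N j) = 0 := by
      rw [th_comp (P i) R hw]
      apply hI3 i0 hi0 i hi w (fun s => by
        have := hw.1 s
        omega)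
      rw [← th_comp (P i0) R hw]
      exact (hN j).2
    have h2 : th0 K (P i) (N j) = th1 K (P i) (N j) := by
      unfold th at h1
      omega
    have h3 := hom_quot K (P i) (hhom i hi j hj hij) (N j) h2 (e.toLinearMap.comp (N i).mkQ)
    have h4 : Function.Surjective (e.toLinearMap.comp (N i).mkQ) :=
      e.surjective.comp (N i).mkQ_surjective
    have hQnt : Nontrivial (Md (f j) ⧸ N j) := Submodule.Quotient.nontrivial_iff.2 (hN j).1
    obtain ⟨z, hz⟩ := exists_ne (0 : Md (f j) ⧸ N j)
    obtain ⟨x, hx⟩ := h4 z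
    rw [h3, LinearMap.zero_apply] at hx
    exact hz hx.symm
  -- infinitely many indices of one dimension
  have hJinf : (Φ ⁻¹' {y} \ {i0}).Infinite := hyinf.sdiff (Set.finite_singleton i0)
  let ι := hJinf.natEmbedding
  have hdim : ∀ k, finrank K (Md (f (ι k)) ⧸ N (ι k)) < d + 1 := by
    intro k
    have h1 := finrank_sub_quot K (N (ι k))
    rw [finrank_Md] at h1
    omega
  obtain ⟨z, hz⟩ := Finite.exists_infinite_fiber
    (fun k => (⟨finrank K (Md (f (ι k)) ⧸ N (ι k)), hdim k⟩ : Fin (d + 1)))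
  let κ := (Set.infinite_coe_iff.1 hz).natEmbedding
  have hκd : ∀ k, finrank K (Md (f (ι (κ k))) ⧸ N (ι (κ k))) = z := by
    intro k
    have := (κ k).2
    rw [Set.mem_preimage, Set.mem_singleton_iff] at this
    exact congrArg Fin.val this
  choose g hg using fun k => exists_rep (K := K) (A := A) (Md (f (ι (κ k))) ⧸ N (ι (κ k))) (hκd k)
  have hι : ∀ k, (ι k : ℕ) ∈ Φ ⁻¹' {y} ∧ (ι k : ℕ) ≠ i0 := fun k => ⟨(ι k).2.1, (ι k).2.2⟩
  refine stableFamily_of (P i0) g ?_ ?_ ?_
  · intro k l hkl hiso
    obtain ⟨e⟩ := iso_iff.1 hiso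
    obtain ⟨ek⟩ := hg k
    obtain ⟨el⟩ := hg l
    have hne : (ι (κ k) : ℕ) ≠ ι (κ l) := by
      intro h
      apply hkl
      apply κ.injective
      apply Subtype.ext
      apply ι.injective
      exact Subtype.ext h
    exact (hBi _ (hι _).1 (hι _).2 _ (hι _).1 (hι _).2 hne).false ((ek.symm.trans e).trans el)
  · intro k
    obtain ⟨e⟩ := hg k
    rw [th_congr (P i0) e]
    exact hB0 _ (hι _).1 (hι _).2
  · intro k W hW1 hW2
    obtain ⟨e⟩ := hg k
    have h1 := th_congr (K := K) (P i0) (e.submoduleMap W)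
    rw [h1]
    refine hBs _ (hι _).1 (hι _).2 _ ?_ ?_
    · intro h
      apply hW1
      rw [← Submodule.map_bot e.toLinearMap] at h
      exact Submodule.map_injective_of_injective e.injective h
    · intro h
      apply hW2
      have h2 : (⊤ : Submodule A (Md (g k))).map e.toLinearMap = ⊤ := by
        rw [Submodule.map_top]
        exact LinearMap.range_eq_top.2 e.surjective
      rw [← h2] at h
      exact Submodule.map_injective_of_injective e.injective h

/-- one sided theorem -/
theorem main_one (f : ℕ → (A →ₐ[K] Module.End K (Fin d → K)))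
    (hf : ∀ i j, i ≠ j → ¬ Iso (f i) (f j)) (hb : ∀ i, Brick (f i)) (hE : ∀ i, ELe (f i))
    (hmin : ∀ d' < d, ¬ ManyBricks K A d') : StableFamily K A := by
  by_cases hinf : {i | IsSimpleModule A (Md (f i))}.Infinite
  · let ι := hinf.natEmbedding
    refine stableFamily_simple (fun k => f (ι k)) (fun i j hij => hf _ _ ?_) (fun k => (ι k).2)
    intro h
    exact hij (ι.injective (Subtype.ext h))
  · have hinf' : {i | IsSimpleModule A (Md (f i))}ᶜ.Infinite :=
      (Set.not_infinite.1 hinf).infinite_compl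
    let ι := hinf'.natEmbedding
    refine core (fun k => f (ι k)) (fun i j hij => hf _ _ ?_) (fun k => hb _) (fun k => hE _)
      hmin (fun k => (ι k).2)
    intro h
    exact hij (ι.injective (Subtype.ext h))

end

end Pool.Agent.H29.SB
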