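import Mathlib

/-!
# Stable bricks: definitions
-/

set_option autoImplicit false

namespace Pool.Agent.H29.SB

variable {K : Type} [Field K] {A : Type} [Ring A] [Algebra K A] {d : ℕ}

/-- two representations on `K ^ d` are isomorphic -/
def Iso (f g : A →ₐ[K] Module.End K (Fin d → K)) : Prop :=
  ∃ h : (Fin d → K) ≃ₗ[K] (Fin d → K), ∀ (a : A) (v : Fin d → K), h (f a v) = g a (h v)

/-- the representation is a brick: all its endomorphisms are scalars -/
def Brick (f : A →ₐ[K] Module.End K (Fin d → K)) : Prop :=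
  ∀ φ : Module.End K (Fin d → K), (∀ a : A, φ * f a = f a * φ) →
    ∃ c : K, φ = algebraMap K (Module.End K (Fin d → K)) c

/-- `E_A(M, M) ≤ 1`: the module `M` of `f` has a projective presentation
`⊕ A e'_j → ⊕ A e_i → M → 0`, given by the matrix `x` and the generators `μ_i` of `M`, with
`dim Hom(⊕ A e'_j, M) ≤ dim Hom(⊕ A e_i, M)`. -/
def ELe (f : A →ₐ[K] Module.End K (Fin d → K)) : Prop :=
  ∃ (m l : ℕ) (e : Fin m → A) (e' : Fin l → A) (x : Fin l → Fin m → A) (μ : Fin m → Fin d → K),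
    (∀ i, IsIdempotentElem (e i)) ∧ (∀ j, IsIdempotentElem (e' j)) ∧
    (∀ j i, e' j * x j i * e i = x j i) ∧ (∀ i, f (e i) (μ i) = μ i) ∧
    (∀ v : Fin d → K, ∃ a : Fin m → A, ∑ i, f (a i) (μ i) = v) ∧
    (∀ j, ∑ i, f (x j i) (μ i) = 0) ∧
    (∀ a : Fin m → A, (∀ i, a i * e i = a i) → ∑ i, f (a i) (μ i) = 0 →
      ∃ b : Fin l → A, ∀ i, a i = ∑ j, b j * x j i) ∧
    ∑ j, Module.finrank K (LinearMap.range (f (e' j))) ≤
      ∑ i, Module.finrank K (LinearMap.range (f (e i)))

/-- there are infinitely many pairwise non-isomorphic bricks of dimension `d` -/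
def ManyBricks (K : Type) [Field K] (A : Type) [Ring A] [Algebra K A] (d : ℕ) : Prop :=
  ∃ f : ℕ → (A →ₐ[K] Module.End K (Fin d → K)),
    (∀ i j : ℕ, i ≠ j → ¬ Iso (f i) (f j)) ∧ ∀ i : ℕ, Brick (f i)

/-- there are a weight and infinitely many pairwise non-isomorphic stable modules of one dimension
(the conclusion of the stable brick conjecture) -/
def StableFamily (K : Type) [Field K] (A : Type) [Ring A] [Algebra K A] : Prop :=
  ∃ (m : ℕ) (e : Fin m → A) (c : Fin m → ℤ), (∀ j, IsIdempotentElem (e j)) ∧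
    ∃ d : ℕ, ∃ f : ℕ → (A →ₐ[K] Module.End K (Fin d → K)),
      (∀ i j : ℕ, i ≠ j → ¬ Iso (f i) (f j)) ∧
      ∀ i : ℕ,
        (∑ j : Fin m, c j *
          ((Module.finrank K ((⊤ : Submodule K (Fin d → K)).map (f i (e j))) : ℕ) : ℤ)) = 0 ∧
        ∀ W : Submodule K (Fin d → K), (∀ (a : A), ∀ v ∈ W, f i a v ∈ W) →
          W ≠ ⊥ → W ≠ ⊤ →
          (∑ j : Fin m, c j *
            ((Module.finrank K (W.map (f i (e j))) : ℕ) : ℤ)) < 0

/-- the dual representation, over the opposite algebra -/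
noncomputable def dual (f : A →ₐ[K] Module.End K (Fin d → K)) :
    Aᵐᵒᵖ →ₐ[K] Module.End K (Fin d → K) where
  toFun a := Matrix.toLin' (LinearMap.toMatrix' (f a.unop)).transpose
  map_one' := by
    simp only [MulOpposite.unop_one, map_one, LinearMap.toMatrix'_one, Matrix.transpose_one,
      Matrix.toLin'_one]
    rfl
  map_mul' a b := by
    rw [MulOpposite.unop_mul, map_mul, LinearMap.toMatrix'_mul, Matrix.transpose_mul,
      Matrix.toLin'_mul]
    rfl
  map_zero' := by simp
  map_add' a b := by simp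
  commutes' r := by
    rw [MulOpposite.algebraMap_apply, MulOpposite.unop_op, AlgHom.commutes,
      Algebra.algebraMap_eq_smul_one, map_smul, LinearMap.toMatrix'_one, Matrix.transpose_smul,
      Matrix.transpose_one, map_smul, Matrix.toLin'_one]
    rfl

end Pool.Agent.H29.SB
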