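import Pool.Agent.H29.SB.Core

/-!
# Stable bricks: duality
-/

set_option autoImplicit false
set_option linter.unusedSectionVars false

namespace Pool.Agent.H29.SB

open Module Matrix

section

variable {K : Type} [Field K] {d : ℕ}

/-- the transposed endomorphism -/
noncomputable def tp (φ : Module.End K (Fin d → K)) : Module.End K (Fin d → K) :=
  Matrix.toLin' (LinearMap.toMatrix' φ).transpose

lemma tp_tp (φ : Module.End K (Fin d → K)) : tp (tp φ) = φ := by
  unfold tp
  rw [LinearMap.toMatrix'_toLin', Matrix.transpose_transpose, Matrix.toLin'_toMatrix']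

lemma tp_mul (φ ψ : Module.End K (Fin d → K)) : tp (φ * ψ) = tp ψ * tp φ := by
  unfold tp
  rw [LinearMap.toMatrix'_mul, Matrix.transpose_mul, Matrix.toLin'_mul]
  rfl

lemma tp_one : tp (1 : Module.End K (Fin d → K)) = 1 := by
  unfold tp
  rw [LinearMap.toMatrix'_one, Matrix.transpose_one, Matrix.toLin'_one]
  rfl

lemma tp_algebraMap (c : K) : tp (algebraMap K (Module.End K (Fin d → K)) c) =
    algebraMap K (Module.End K (Fin d → K)) c := by
  unfold tp
  rw [Algebra.algebraMap_eq_smul_one, map_smul, LinearMap.toMatrix'_one, Matrix.transpose_smul,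
    Matrix.transpose_one, map_smul, Matrix.toLin'_one]
  rfl

lemma tp_dot (φ : Module.End K (Fin d → K)) (x y : Fin d → K) :
    (tp φ x) ⬝ᵥ y = x ⬝ᵥ (φ y) := by
  unfold tp
  rw [Matrix.toLin'_apply, Matrix.mulVec_transpose, ← Matrix.dotProduct_mulVec,
    LinearMap.toMatrix'_mulVec]

/-- the standard bilinear form -/
noncomputable def bf (K : Type) [Field K] (d : ℕ) : LinearMap.BilinForm K (Fin d → K) :=
  dotProductBilin K K

lemma bf_apply (x y : Fin d → K) : bf K d x y = x ⬝ᵥ y := rfl

lemma bf_refl : (bf K d).IsRefl := by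
  intro x y h
  rw [bf_apply] at h ⊢
  rw [dotProduct_comm]
  exact h

lemma bf_nondeg : (bf K d).Nondegenerate := by
  refine ⟨fun x h => dotProduct_eq_zero x fun y => h y, fun y h => dotProduct_eq_zero y fun x => ?_⟩
  rw [dotProduct_comm]
  exact h x

/-- orthogonal complement -/
noncomputable def oc (W : Submodule K (Fin d → K)) : Submodule K (Fin d → K) :=
  (bf K d).orthogonal W

lemma mem_oc {W : Submodule K (Fin d → K)} {x : Fin d → K} :
    x ∈ oc W ↔ ∀ w ∈ W, w ⬝ᵥ x = 0 := Iff.rfl

lemma oc_oc (W : Submodule K (Fin d → K)) : oc (oc W) = W :=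
  LinearMap.BilinForm.orthogonal_orthogonal bf_nondeg bf_refl W

lemma finrank_oc (W : Submodule K (Fin d → K)) : finrank K (oc W) + finrank K W = d := by
  have h1 := LinearMap.BilinForm.finrank_orthogonal (bf_nondeg (K := K) (d := d)) W
  have h2 := Submodule.finrank_le W
  rw [finrank_fin_fun] at h1 h2
  unfold oc
  omega

lemma oc_top : oc (⊤ : Submodule K (Fin d → K)) = ⊥ := by
  rw [eq_bot_iff]
  intro x hx
  rw [mem_oc] at hx
  refine dotProduct_eq_zero x fun y => ?_
  rw [dotProduct_comm]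
  exact hx y Submodule.mem_top

lemma oc_bot : oc (⊥ : Submodule K (Fin d → K)) = ⊤ := by
  rw [← oc_top, oc_oc]

lemma oc_ne_bot {W : Submodule K (Fin d → K)} (h : W ≠ ⊤) : oc W ≠ ⊥ := by
  intro h'
  apply h
  rw [← oc_oc W, h', oc_bot]

lemma oc_ne_top {W : Submodule K (Fin d → K)} (h : W ≠ ⊥) : oc W ≠ ⊤ := by
  intro h'
  apply h
  rw [← oc_oc W, h', oc_top]

lemma oc_inv {W : Submodule K (Fin d → K)} {φ : Module.End K (Fin d → K)}
    (h : ∀ v ∈ W, tp φ v ∈ W) : ∀ v ∈ oc W, φ v ∈ oc W := by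
  intro v hv
  rw [mem_oc] at hv ⊢
  intro w hw
  rw [← tp_dot]
  exact hv _ (h w hw)

lemma ker_tp (φ : Module.End K (Fin d → K)) :
    LinearMap.ker (tp φ) = oc (LinearMap.range φ) := by
  ext x
  rw [LinearMap.mem_ker, mem_oc]
  constructor
  · rintro h _ ⟨y, rfl⟩
    rw [dotProduct_comm, ← tp_dot, h, zero_dotProduct]
  · intro h
    refine dotProduct_eq_zero _ fun y => ?_
    rw [tp_dot, dotProduct_comm]
    exact h _ ⟨y, rfl⟩

lemma inf_oc (U V : Submodule K (Fin d → K)) : oc U ⊓ oc V = oc (U ⊔ V) := by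
  apply le_antisymm
  · rintro x ⟨h1, h2⟩
    have h1' := mem_oc.1 h1
    have h2' := mem_oc.1 h2
    rw [mem_oc]
    intro w hw
    obtain ⟨u, hu, v, hv, rfl⟩ := Submodule.mem_sup.1 hw
    rw [add_dotProduct, h1' u hu, h2' v hv, add_zero]
  · intro x hx
    have hx' := mem_oc.1 hx
    exact ⟨mem_oc.2 fun w hw => hx' w (Submodule.mem_sup_left hw),
      mem_oc.2 fun w hw => hx' w (Submodule.mem_sup_right hw)⟩

lemma finrank_map_ker (φ : Module.End K (Fin d → K)) (W : Submodule K (Fin d → K)) :
    finrank K (W.map φ) + finrank K (W ⊓ LinearMap.ker φ : Submodule K (Fin d → K)) =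
      finrank K W := by
  have h1 := LinearMap.finrank_range_add_finrank_ker (φ.domRestrict W)
  have h2 : LinearMap.range (φ.domRestrict W) = W.map φ := by
    rw [LinearMap.range_domRestrict]
  have h3 : (LinearMap.ker (φ.domRestrict W)).map W.subtype = W ⊓ LinearMap.ker φ := by
    ext x
    simp only [Submodule.mem_map, LinearMap.mem_ker, Submodule.mem_inf]
    constructor
    · rintro ⟨y, hy, rfl⟩
      exact ⟨y.2, hy⟩
    · rintro ⟨hx, hx'⟩
      exact ⟨⟨x, hx⟩, hx', rfl⟩
  have h4 := (Submodule.equivMapOfInjective W.subtype W.injective_subtype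
    (LinearMap.ker (φ.domRestrict W))).finrank_eq
  rw [h3] at h4
  rw [h2, h4] at h1
  exact h1

/-- duality formula -/
lemma finrank_tp {φ : Module.End K (Fin d → K)} (hφ : φ * φ = φ) {W : Submodule K (Fin d → K)}
    (h : ∀ v ∈ W, tp φ v ∈ W) :
    finrank K (W.map (tp φ)) + finrank K ((oc W).map φ) =
      finrank K ((⊤ : Submodule K (Fin d → K)).map φ) := by
  have h1 := finrank_map_ker (tp φ) W
  have h2 : W ⊓ LinearMap.ker (tp φ) = oc (oc W ⊔ LinearMap.range φ) := by
    rw [ker_tp, ← inf_oc, oc_oc]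
  rw [h2] at h1
  have h3 := finrank_oc (oc W ⊔ LinearMap.range φ)
  have h4 := finrank_oc W
  have h5 := Submodule.finrank_sup_add_finrank_inf_eq (oc W) (LinearMap.range φ)
  have h6 : oc W ⊓ LinearMap.range φ = (oc W).map φ := by
    apply le_antisymm
    · rintro _ ⟨hx, y, rfl⟩
      refine ⟨φ y, hx, ?_⟩
      have := LinearMap.congr_fun hφ y
      exact this
    · rintro _ ⟨x, hx, rfl⟩
      exact ⟨oc_inv h x hx, x, rfl⟩
  rw [h6] at h5
  rw [Submodule.map_top]
  omega

lemma finrank_tp_top {φ : Module.End K (Fin d → K)} (hφ : φ * φ = φ) :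
    finrank K ((⊤ : Submodule K (Fin d → K)).map (tp φ)) =
      finrank K ((⊤ : Submodule K (Fin d → K)).map φ) := by
  have h := finrank_tp hφ (W := ⊤) (fun _ _ => Submodule.mem_top)
  rw [oc_top, Submodule.map_bot, finrank_bot, add_zero] at h
  exact h

/-! ### transposed representations -/

variable {A B : Type} [Ring A] [Algebra K A] [Ring B] [Algebra K B]

lemma brick_tp {u : B → A} (hu : Function.Surjective u) {f : A →ₐ[K] Module.End K (Fin d → K)}
    {g : B →ₐ[K] Module.End K (Fin d → K)} (hg : ∀ b, g b = tp (f (u b))) (hf : Brick f) :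
    Brick g := by
  intro φ hφ
  obtain ⟨c, hc⟩ := hf (tp φ) (fun a => by
    obtain ⟨b, rfl⟩ := hu a
    have h1 := congrArg tp (hφ b)
    rw [tp_mul, tp_mul, hg, tp_tp] at h1
    exact h1.symm)
  refine ⟨c, ?_⟩
  have h2 := congrArg tp hc
  rwa [tp_tp, tp_algebraMap] at h2

lemma iso_tp {u : B → A} (hu : Function.Surjective u)
    {f f' : A →ₐ[K] Module.End K (Fin d → K)} {g g' : B →ₐ[K] Module.End K (Fin d → K)}
    (hg : ∀ b, g b = tp (f (u b))) (hg' : ∀ b, g' b = tp (f' (u b))) (h : Iso g g') :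
    Iso f f' := by
  obtain ⟨e, he⟩ := h
  have h1 : ∀ b, e.toLinearMap * g b = g' b * e.toLinearMap := fun b =>
    LinearMap.ext fun v => he b v
  have h2 : e.symm.toLinearMap * e.toLinearMap = (1 : Module.End K (Fin d → K)) :=
    LinearMap.ext fun v => e.symm_apply_apply v
  have h3 : e.toLinearMap * e.symm.toLinearMap = (1 : Module.End K (Fin d → K)) :=
    LinearMap.ext fun v => e.apply_symm_apply v
  have h4 : ∀ b, g b * e.symm.toLinearMap = e.symm.toLinearMap * g' b := by
    intro b
    calc g b * e.symm.toLinearMap = (e.symm.toLinearMap * e.toLinearMap) *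
          (g b * e.symm.toLinearMap) := by rw [h2, one_mul]
      _ = e.symm.toLinearMap * (e.toLinearMap * g b) * e.symm.toLinearMap := by
          simp only [mul_assoc]
      _ = e.symm.toLinearMap * g' b * (e.toLinearMap * e.symm.toLinearMap) := by
          rw [h1]
          simp only [mul_assoc]
      _ = _ := by rw [h3, mul_one]
  have h5 : tp (e.symm.toLinearMap) * tp (e.toLinearMap) = (1 : Module.End K (Fin d → K)) := by
    rw [← tp_mul, h3, tp_one]
  have h6 : tp (e.toLinearMap) * tp (e.symm.toLinearMap) = (1 : Module.End K (Fin d → K)) := by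
    rw [← tp_mul, h2, tp_one]
  refine ⟨LinearEquiv.ofLinear (tp e.symm.toLinearMap) (tp e.toLinearMap) h5 h6, fun a v => ?_⟩
  obtain ⟨b, rfl⟩ := hu a
  have h7 := congrArg tp (h4 b)
  rw [tp_mul, tp_mul, hg, hg', tp_tp, tp_tp] at h7
  exact LinearMap.congr_fun h7 v

/-- the dual representation, of `A`, of a representation of `Aᵐᵒᵖ` -/
noncomputable def dual' (g : Aᵐᵒᵖ →ₐ[K] Module.End K (Fin d → K)) :
    A →ₐ[K] Module.End K (Fin d → K) where
  toFun a := tp (g (MulOpposite.op a))
  map_one' := by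
    rw [MulOpposite.op_one, map_one, tp_one]
  map_mul' a b := by
    rw [MulOpposite.op_mul, map_mul, tp_mul]
  map_zero' := by
    unfold tp
    simp
  map_add' a b := by
    unfold tp
    simp
  commutes' r := by
    rw [← MulOpposite.algebraMap_apply, AlgHom.commutes, tp_algebraMap]

lemma dual_apply (f : A →ₐ[K] Module.End K (Fin d → K)) (b : Aᵐᵒᵖ) :
    dual f b = tp (f b.unop) := rfl

lemma dual'_apply (g : Aᵐᵒᵖ →ₐ[K] Module.End K (Fin d → K)) (a : A) :
    dual' g a = tp (g (MulOpposite.op a)) := rfl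

lemma manyBricks_op (h : ManyBricks K Aᵐᵒᵖ d) : ManyBricks K A d := by
  obtain ⟨g, hg, hb⟩ := h
  refine ⟨fun i => dual' (g i), fun i j hij hiso => hg i j hij ?_, fun i => ?_⟩
  · exact iso_tp MulOpposite.op_surjective (dual'_apply (g i)) (dual'_apply (g j)) hiso
  · exact brick_tp MulOpposite.op_surjective (dual'_apply (g i)) (hb i)

lemma stableFamily_op (h : StableFamily K Aᵐᵒᵖ) : StableFamily K A := by
  obtain ⟨m, e, c, he, d, g, hg, hs⟩ := h
  have hid : ∀ i j, g i (e j) * g i (e j) = g i (e j) := by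
    intro i j
    rw [← map_mul, (he j).eq]
  refine ⟨m, fun j => (e j).unop, fun j => -c j, fun j => ?_, d, fun i => dual' (g i),
    fun i j hij hiso => hg i j hij ?_, fun i => ⟨?_, ?_⟩⟩
  · have := congrArg MulOpposite.unop (he j).eq
    rw [MulOpposite.unop_mul] at this
    exact this
  · exact iso_tp MulOpposite.op_surjective (dual'_apply (g i)) (dual'_apply (g j)) hiso
  · have h1 := (hs i).1
    have h2 : ∀ j, finrank K ((⊤ : Submodule K (Fin d → K)).map (dual' (g i) (e j).unop)) =
        finrank K ((⊤ : Submodule K (Fin d → K)).map (g i (e j))) := by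
      intro j
      rw [dual'_apply, MulOpposite.op_unop]
      exact finrank_tp_top (hid i j)
    simp only [h2, neg_mul, Finset.sum_neg_distrib, h1, neg_zero]
  · intro W hW hb ht
    have hW' : ∀ b : Aᵐᵒᵖ, ∀ v ∈ W, tp (g i b) v ∈ W := by
      intro b v hv
      have := hW b.unop v hv
      rw [dual'_apply, MulOpposite.op_unop] at this
      exact this
    have h1 := (hs i).1
    have h2 := (hs i).2 (oc W) (fun b v hv => oc_inv (hW' b) v hv) (oc_ne_bot ht) (oc_ne_top hb)
    have h3 : ∀ j, ((finrank K (W.map (dual' (g i) (e j).unop)) : ℕ) : ℤ) =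
        ((finrank K ((⊤ : Submodule K (Fin d → K)).map (g i (e j))) : ℕ) : ℤ) -
          ((finrank K ((oc W).map (g i (e j))) : ℕ) : ℤ) := by
      intro j
      rw [dual'_apply, MulOpposite.op_unop]
      have := finrank_tp (hid i j) (hW' (e j))
      omega
    have h4 : ∑ j, -c j * ((finrank K (W.map (dual' (g i) (e j).unop)) : ℕ) : ℤ) =
        -(∑ j, c j * ((finrank K ((⊤ : Submodule K (Fin d → K)).map (g i (e j))) : ℕ) : ℤ)) +
          ∑ j, c j * ((finrank K ((oc W).map (g i (e j))) : ℕ) : ℤ) := by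
      rw [← Finset.sum_neg_distrib, ← Finset.sum_add_distrib]
      refine Finset.sum_congr rfl fun j _ => ?_
      rw [h3 j]
      ring
    rw [h4, h1]
    linarith

/-- the theorem -/
theorem main [IsAlgClosed K] (f : ℕ → (A →ₐ[K] Module.End K (Fin d → K)))
    (hf : ∀ i j, i ≠ j → ¬ Iso (f i) (f j)) (hb : ∀ i, Brick (f i))
    (hE : ∀ i, ELe (f i) ∨ ELe (dual (f i)))
    (hmin : ∀ d' < d, ¬ ManyBricks K A d') : StableFamily K A := by
  by_cases hinf : {i | ELe (f i)}.Infinite
  · let ι := hinf.natEmbedding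
    refine main_one (fun k => f (ι k)) (fun i j hij => hf _ _ ?_) (fun k => hb _)
      (fun k => (ι k).2) hmin
    intro h
    exact hij (ι.injective (Subtype.ext h))
  · have hinf' : {i | ELe (f i)}ᶜ.Infinite := (Set.not_infinite.1 hinf).infinite_compl
    let ι := hinf'.natEmbedding
    apply stableFamily_op
    refine main_one (fun k => dual (f (ι k))) (fun i j hij hiso => ?_) (fun k => ?_)
      (fun k => (hE (ι k)).resolve_left (ι k).2) (fun d' hd' h => hmin d' hd' (manyBricks_op h))
    · refine hf (ι i) (ι j) (fun h => hij (ι.injective (Subtype.ext h))) ?_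
      exact iso_tp MulOpposite.unop_surjective (dual_apply (f (ι i))) (dual_apply (f (ι j))) hiso
    · exact brick_tp MulOpposite.unop_surjective (dual_apply (f (ι k))) (hb _)

end

end Pool.Agent.H29.SB
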