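import Pool.Agent.H29.SB.Reps

/-!
# Stable bricks: the main theorem, one side
-/

set_option autoImplicit false
set_option linter.unusedSectionVars false

namespace Pool.Agent.H29.SB

open Module

section

variable {K : Type} [Field K] {A : Type} [Ring A] [Algebra K A]

section theta

variable {M : Type} [AddCommGroup M] [Module A M] (P : Pr A M)

/-- the weight of a presentation -/
noncomputable def th (K : Type) [Field K] {A : Type} [Ring A] [Algebra K A] {M : Type}
    [AddCommGroup M] [Module A M] (P : Pr A M) (N : Type) [AddCommGroup N] [Module K N]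
    [Module A N] [IsScalarTower K A N] : ℤ := th0 K P N - th1 K P N

variable {N N' : Type} [AddCommGroup N] [Module K N] [Module A N] [IsScalarTower K A N]
  [AddCommGroup N'] [Module K N'] [Module A N'] [IsScalarTower K A N']

lemma th_congr (e : N ≃ₗ[A] N') : th K P N = th K P N' := by
  unfold th th0 th1
  simp only [dimE_congr K e]

lemma th_add [FiniteDimensional K N] (W : Submodule A N) :
    th K P N = th K P W + th K P (N ⧸ W) := by
  unfold th
  rw [th0_add K P N W, th1_add K P N W]
  push_cast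
  ring

lemma th_nonpos [FiniteDimensional K N] (h0 : ∀ h : M →ₗ[A] N, h = 0) : th K P N ≤ 0 := by
  unfold th
  have := th_le K P (N := N) h0
  omega

lemma th_comp {d : ℕ} (R : Reps K A d) {v : R.S → ℕ} (hv : Comp R N v) :
    th K P N = ∑ s, (v s : ℤ) * th K P (Md (R.g s)) := by
  unfold th th0 th1
  have h0 : ∑ i, dimE K N (P.e i) = ∑ s, v s * ∑ i, dimE K (Md (R.g s)) (P.e i) := by
    simp only [Finset.mul_sum]
    rw [Finset.sum_comm]
    exact Finset.sum_congr rfl fun i _ => hv.2 _ (P.he i)
  have h1 : ∑ i, dimE K N (P.e' i) = ∑ s, v s * ∑ i, dimE K (Md (R.g s)) (P.e' i) := by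
    simp only [Finset.mul_sum]
    rw [Finset.sum_comm]
    exact Finset.sum_congr rfl fun i _ => hv.2 _ (P.he' i)
  rw [h0, h1]
  push_cast
  rw [← Finset.sum_sub_distrib]
  refine Finset.sum_congr rfl fun s _ => ?_
  ring

lemma th_bot [FiniteDimensional K N] : th K P (⊥ : Submodule A N) = 0 := by
  have h : ∀ e : A, dimE K (⊥ : Submodule A N) e = 0 := by
    intro e
    have h1 := dimE_le K (N := (⊥ : Submodule A N)) e
    have h2 : finrank K (⊥ : Submodule A N) = 0 := finrank_zero_of_subsingleton
    omega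
  unfold th th0 th1
  simp [h]

/-- the weight of a submodule of a quotient -/
lemma th_quot_sub [FiniteDimensional K N] (W : Submodule A N) (V : Submodule A (N ⧸ W)) :
    th K P V = th K P (V.comap W.mkQ) - th K P W := by
  have h1 := th_add (K := K) P (N := N ⧸ W) V
  have h2 := th_add (K := K) P (N := N) W
  have h3 := th_add (K := K) P (N := N) (V.comap W.mkQ)
  have hle : W ≤ V.comap W.mkQ := by
    intro x hx
    rw [Submodule.mem_comap, Submodule.mkQ_apply, (Submodule.Quotient.mk_eq_zero W).2 hx]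
    exact V.zero_mem
  have h4 : (V.comap W.mkQ).map W.mkQ = V :=
    Submodule.map_comap_eq_of_surjective W.mkQ_surjective V
  have e := Submodule.quotientQuotientEquivQuotient W (V.comap W.mkQ) hle
  rw [h4] at e
  have h5 := th_congr (K := K) P e
  linarith

end theta

/-- the submodule of an invariant subspace -/
def toSub {d : ℕ} {f : A →ₐ[K] Module.End K (Fin d → K)} (W : Submodule K (Fin d → K))
    (hW : ∀ (a : A), ∀ v ∈ W, f a v ∈ W) : Submodule A (Md f) where
  carrier := (W : Set (Fin d → K))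
  add_mem' := W.add_mem'
  zero_mem' := W.zero_mem'
  smul_mem' := fun a v hv => hW a v hv

lemma finrank_map {d : ℕ} {f : A →ₐ[K] Module.End K (Fin d → K)} (W : Submodule K (Fin d → K))
    (hW : ∀ (a : A), ∀ v ∈ W, f a v ∈ W) (e : A) :
    finrank K (W.map (f e)) = dimE K (toSub W hW) e := by
  unfold dimE
  set i : toSub W hW →ₗ[K] (Fin d → K) :=
    { toFun := fun v => (v : Md f)
      map_add' := fun _ _ => rfl
      map_smul' := fun _ _ => rfl } with hi
  have hinj : Function.Injective i := fun x y h => Subtype.ext h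
  have h1 : W.map (f e) = (LinearMap.range (Algebra.lsmul K K (toSub W hW) e)).map i := by
    ext y
    simp only [Submodule.mem_map, LinearMap.mem_range]
    constructor
    · rintro ⟨x, hx, rfl⟩
      exact ⟨e • (⟨x, hx⟩ : toSub W hW), ⟨⟨x, hx⟩, rfl⟩, rfl⟩
    · rintro ⟨_, ⟨x, rfl⟩, rfl⟩
      exact ⟨(x : Md f), x.2, rfl⟩
  rw [h1]
  exact (Submodule.equivMapOfInjective i hinj _).finrank_eq.symm

lemma finrank_map_top {d : ℕ} {f : A →ₐ[K] Module.End K (Fin d → K)} (e : A) :
    finrank K ((⊤ : Submodule K (Fin d → K)).map (f e)) = dimE K (Md f) e := by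
  rw [Submodule.map_top]
  rfl

lemma exists_pr {d : ℕ} {f : A →ₐ[K] Module.End K (Fin d → K)} (h : ELe f) :
    ∃ P : Pr A (Md f), 0 ≤ th K P (Md f) := by
  obtain ⟨m, l, e, e', x, μ, he, he', hx, hμ, gen, rel0, rel, hle⟩ := h
  let P : Pr A (Md f) :=
    { m := m, l := l, e := e, e' := e', x := x, μ := μ, he := he, he' := he', hx := hx,
      hμ := hμ, gen := gen, rel0 := rel0, rel := rel }
  refine ⟨P, ?_⟩
  have h1 : th1 K P (Md f) ≤ th0 K P (Md f) := hle
  unfold th
  omega

lemma eq_bot_of_toSub {d : ℕ} {f : A →ₐ[K] Module.End K (Fin d → K)}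
    {W : Submodule K (Fin d → K)} {hW : ∀ (a : A), ∀ v ∈ W, f a v ∈ W} (h : toSub W hW = ⊥) :
    W = ⊥ := by
  rw [eq_bot_iff]
  intro x hx
  have h2 : ∀ y : Md f, y ∈ toSub W hW → y = 0 := fun y hy => by
    rw [h] at hy
    exact hy
  exact h2 x hx

lemma eq_top_of_toSub {d : ℕ} {f : A →ₐ[K] Module.End K (Fin d → K)}
    {W : Submodule K (Fin d → K)} {hW : ∀ (a : A), ∀ v ∈ W, f a v ∈ W} (h : toSub W hW = ⊤) :
    W = ⊤ := by
  rw [eq_top_iff]
  intro x _
  have h2 : ∀ y : Md f, y ∈ toSub W hW := fun y => by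
    rw [h]
    exact Submodule.mem_top
  exact h2 x

/-- from modules to a stable family -/
lemma stableFamily_of {M : Type} [AddCommGroup M] [Module A M] (P : Pr A M) {d : ℕ}
    (f : ℕ → (A →ₐ[K] Module.End K (Fin d → K))) (hf : ∀ i j, i ≠ j → ¬ Iso (f i) (f j))
    (h0 : ∀ i, th K P (Md (f i)) = 0)
    (hW : ∀ i, ∀ W : Submodule A (Md (f i)), W ≠ ⊥ → W ≠ ⊤ → th K P W < 0) :
    StableFamily K A := by
  refine ⟨P.m + P.l, Fin.append P.e P.e', Fin.append (fun _ => 1) (fun _ => -1), ?_, d, f, hf,
    fun i => ⟨?_, ?_⟩⟩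
  · intro j
    refine Fin.addCases (fun i => ?_) (fun i => ?_) j
    · rw [Fin.append_left]
      exact P.he i
    · rw [Fin.append_right]
      exact P.he' i
  · rw [Fin.sum_univ_add]
    simp only [Fin.append_left, Fin.append_right, finrank_map_top]
    have := h0 i
    unfold th th0 th1 at this
    push_cast at this
    simp only [one_mul, neg_mul, Finset.sum_neg_distrib]
    linarith
  · intro W hWi hb ht
    have h1 := hW i (toSub W hWi) (fun h => hb (eq_bot_of_toSub h))
      (fun h => ht (eq_top_of_toSub h))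
    rw [Fin.sum_univ_add]
    simp only [Fin.append_left, Fin.append_right, finrank_map W hWi]
    unfold th th0 th1 at h1
    push_cast at h1
    simp only [one_mul, neg_mul, Finset.sum_neg_distrib]
    linarith

/-- the trivial presentation of the zero weight -/
lemma stableFamily_simple {d : ℕ} (f : ℕ → (A →ₐ[K] Module.End K (Fin d → K)))
    (hf : ∀ i j, i ≠ j → ¬ Iso (f i) (f j)) (hs : ∀ i, IsSimpleModule A (Md (f i))) :
    StableFamily K A := by
  refine ⟨0, Fin.elim0, Fin.elim0, fun j => j.elim0, d, f, hf, fun i => ⟨by simp, ?_⟩⟩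
  intro W hWi hb ht
  exfalso
  have := hs i
  rcases eq_bot_or_eq_top (toSub W hWi) with h | h
  · exact hb (eq_bot_of_toSub h)
  · exact ht (eq_top_of_toSub h)

end

end Pool.Agent.H29.SB
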