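import Pool.Agent.H29.SB.Dual

/-!
# Stable families of a quotient algebra
-/

set_option autoImplicit false

namespace Pool.Agent.H29.SB

open Polynomial

variable {K : Type} [Field K] {A : Type} [Ring A] [Algebra K A] {B : Type} [Ring B] [Algebra K B]

/-- idempotents lift along surjections of finite dimensional algebras -/
theorem exists_lift [FiniteDimensional K A] (π : A →ₐ[K] B) (a : A)
    (hb : IsIdempotentElem (π a)) : ∃ e : A, IsIdempotentElem e ∧ π e = π a := by
  have hint : IsIntegral K a := Algebra.IsIntegral.isIntegral a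
  have hm0 : minpoly K a ≠ 0 := minpoly.ne_zero hint
  obtain ⟨q, hq, hnd⟩ := Polynomial.exists_eq_pow_rootMultiplicity_mul_and_not_dvd
    (minpoly K a) hm0 0
  rw [C_0, sub_zero] at hq hnd
  set k := (minpoly K a).rootMultiplicity 0
  have hcop : IsCoprime (X ^ (k + 1) : K[X]) q :=
    IsCoprime.pow_left ((Polynomial.irreducible_X.coprime_iff_not_dvd).2 hnd)
  obtain ⟨u, v, huv⟩ := hcop
  have hzero : ∀ w : K[X], aeval a (w * (X ^ (k + 1) * q)) = 0 := by
    intro w
    have h1 : w * (X ^ (k + 1) * q) = (w * X) * (X ^ k * q) := by ring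
    rw [h1, ← hq, map_mul, minpoly.aeval, mul_zero]
  set p : K[X] := u * X ^ (k + 1) with hp
  have hpow : (π a) ^ (k + 1) = π a := hb.pow_succ_eq k
  have h1 : π (aeval a p) = aeval (π a) u * π a := by
    rw [← Polynomial.aeval_algHom_apply, hp, map_mul, map_pow, aeval_X, hpow]
  have h2 : aeval a p * a ^ (k + 1) = a ^ (k + 1) := by
    have h3 : p * X ^ (k + 1) = X ^ (k + 1) - v * (X ^ (k + 1) * q) := by
      linear_combination (X ^ (k + 1)) * huv
    have h4 := congrArg (aeval a) h3
    rw [map_sub, hzero, sub_zero, map_mul, map_pow, aeval_X] at h4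
    exact h4
  refine ⟨aeval a p, ?_, ?_⟩
  · have h3 : p * p = p - (u * v) * (X ^ (k + 1) * q) := by
      rw [hp]
      linear_combination (u * X ^ (k + 1)) * huv
    have h4 := congrArg (aeval a) h3
    rw [map_sub, hzero, sub_zero, map_mul] at h4
    exact h4
  · have h3 := congrArg π h2
    rw [map_mul, map_pow, hpow] at h3
    rw [← h3]
    nth_rewrite 1 [h1]
    rw [h1, mul_assoc, hb.eq]

/-- a stable family of a quotient algebra is a stable family of the algebra -/
theorem StableFamily.of_surjective [FiniteDimensional K A] (π : A →ₐ[K] B)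
    (hπ : Function.Surjective π) (h : StableFamily K B) : StableFamily K A := by
  obtain ⟨m, e, c, he, d, f, hf, hst⟩ := h
  have hlift : ∀ j, ∃ e' : A, IsIdempotentElem e' ∧ π e' = e j := by
    intro j
    obtain ⟨a, ha⟩ := hπ (e j)
    obtain ⟨e', h1, h2⟩ := exists_lift π a (by rw [ha]; exact he j)
    exact ⟨e', h1, by rw [h2, ha]⟩
  choose e' h1 h2 using hlift
  refine ⟨m, e', c, h1, d, fun i => (f i).comp π, ?_, ?_⟩
  · rintro i j hij ⟨g, hg⟩
    refine hf i j hij ⟨g, fun b v => ?_⟩
    obtain ⟨a, rfl⟩ := hπ b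
    exact hg a v
  · intro i
    have h3 : ∀ j, ((f i).comp π) (e' j) = f i (e j) := fun j => by
      rw [AlgHom.comp_apply, h2]
    have h4 : ∀ W : Submodule K (Fin d → K),
        (∑ j : Fin m, c j *
          ((Module.finrank K (W.map (((f i).comp π) (e' j))) : ℕ) : ℤ)) =
        ∑ j : Fin m, c j * ((Module.finrank K (W.map (f i (e j))) : ℕ) : ℤ) := by
      intro W
      refine Finset.sum_congr rfl fun j _ => ?_
      rw [h3 j]
    refine ⟨(h4 ⊤).trans (hst i).1, fun W hW h5 h6 => ?_⟩
    rw [h4 W]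
    refine (hst i).2 W (fun b v hv => ?_) h5 h6
    obtain ⟨a, rfl⟩ := hπ b
    exact hW a v hv

/-- the main theorem over a quotient algebra -/
theorem main_quot [IsAlgClosed K] [FiniteDimensional K A] (π : A →ₐ[K] B)
    (hπ : Function.Surjective π) {d : ℕ} (f : ℕ → (B →ₐ[K] Module.End K (Fin d → K)))
    (hf : ∀ i j : ℕ, i ≠ j → ¬ Iso (f i) (f j)) (hb : ∀ i : ℕ, Brick (f i))
    (hE : ∀ i : ℕ, ELe (f i) ∨ ELe (dual (f i)))
    (hmin : ∀ d' < d, ¬ ManyBricks K B d') : StableFamily K A :=
  StableFamily.of_surjective π hπ (main f hf hb hE hmin)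

end Pool.Agent.H29.SB
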