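import Pool.Agent.H29.SB.Basic

/-!
# Stable bricks: representations and modules, bricks
-/

set_option autoImplicit false
set_option linter.unusedSectionVars false

namespace Pool.Agent.H29.SB

open Module

section rep

variable {K : Type} [Field K] {A : Type} [Ring A] [Algebra K A]

/-- every finite dimensional module comes from a representation -/
lemma exists_rep (N : Type) [AddCommGroup N] [Module K N] [Module A N] [IsScalarTower K A N]
    [FiniteDimensional K N] {n : ℕ} (hn : finrank K N = n) :
    ∃ f : A →ₐ[K] Module.End K (Fin n → K), Nonempty (Md f ≃ₗ[A] N) := by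
  subst hn
  let e : N ≃ₗ[K] (Fin (finrank K N) → K) := (finBasis K N).equivFun
  let f : A →ₐ[K] Module.End K (Fin (finrank K N) → K) :=
    (e.conjAlgEquiv K).toAlgHom.comp (Algebra.lsmul K K N)
  refine ⟨f, ⟨{ toFun := fun v => e.symm v
                map_add' := fun v w => map_add e.symm v w
                map_smul' := fun a v => ?_
                invFun := fun x => e x
                left_inv := fun v => e.apply_symm_apply v
                right_inv := fun x => e.symm_apply_apply x }⟩⟩
  change e.symm (f a v) = a • e.symm v
  change e.symm (e (a • e.symm v)) = a • e.symm v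
  rw [e.symm_apply_apply]

lemma iso_iff {d : ℕ} {f g : A →ₐ[K] Module.End K (Fin d → K)} :
    Iso f g ↔ Nonempty (Md f ≃ₗ[A] Md g) := by
  constructor
  · rintro ⟨h, hh⟩
    exact ⟨{ toFun := fun v => h v
             map_add' := fun v w => map_add h v w
             map_smul' := fun a v => hh a v
             invFun := fun v => h.symm v
             left_inv := fun v => h.symm_apply_apply v
             right_inv := fun v => h.apply_symm_apply v }⟩
  · rintro ⟨h⟩
    refine ⟨h.restrictScalars K, fun a v => ?_⟩
    have h1 : ∀ w : Md f, h (a • w) = a • h w := fun w => map_smul h a w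
    exact h1 v

variable (K) in
/-- all endomorphisms are scalars -/
def IsBr (A : Type) [Ring A] (N : Type) [AddCommGroup N] [Module K N] [Module A N] : Prop :=
  ∀ φ : N →ₗ[A] N, ∃ c : K, ∀ x, φ x = c • x

lemma brick_iff {d : ℕ} {f : A →ₐ[K] Module.End K (Fin d → K)} :
    Brick f ↔ IsBr K A (Md f) := by
  constructor
  · intro h φ
    obtain ⟨c, hc⟩ := h (φ.restrictScalars K) (fun a => by
      refine LinearMap.ext fun v => ?_
      have h1 : ∀ w : Md f, φ (a • w) = a • φ w := fun w => map_smul φ a w
      exact h1 v)
    refine ⟨c, fun x => ?_⟩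
    have h2 := LinearMap.congr_fun hc x
    exact h2
  · intro h φ hφ
    obtain ⟨c, hc⟩ := h { toFun := fun v : Md f => (φ v : Fin d → K)
                          map_add' := fun v w => map_add φ v w
                          map_smul' := fun a v => by
                            have := LinearMap.congr_fun (hφ a) v
                            exact this }
    refine ⟨c, LinearMap.ext fun v => ?_⟩
    exact hc v

variable {N N' : Type} [AddCommGroup N] [Module K N] [Module A N] [IsScalarTower K A N]
  [AddCommGroup N'] [Module K N'] [Module A N'] [IsScalarTower K A N']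

lemma IsBr.congr (h : IsBr K A N) (e : N ≃ₗ[A] N') : IsBr K A N' := by
  intro φ
  obtain ⟨c, hc⟩ := h ((e.symm.toLinearMap.comp φ).comp e.toLinearMap)
  refine ⟨c, fun x => ?_⟩
  have h1 := hc (e.symm x)
  simp only [LinearMap.comp_apply, LinearEquiv.coe_coe, LinearEquiv.apply_symm_apply] at h1
  have h2 := congrArg e h1
  rw [LinearEquiv.apply_symm_apply] at h2
  rw [h2]
  have h3 := (e.restrictScalars K).map_smul c (e.symm x)
  have h4 : (e.restrictScalars K) (c • e.symm x) = c • x := by
    rw [h3]
    congr 1
    exact e.apply_symm_apply x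
  exact h4

/-- nonzero endomorphisms injective -/
lemma isBr_of_inj [IsAlgClosed K] [FiniteDimensional K N] [Nontrivial N]
    (h : ∀ φ : N →ₗ[A] N, φ ≠ 0 → Function.Injective φ) : IsBr K A N := by
  intro φ
  obtain ⟨c, hc⟩ := Module.End.exists_eigenvalue (φ.restrictScalars K)
  obtain ⟨v, hv⟩ := hc.exists_hasEigenvector
  refine ⟨c, fun x => ?_⟩
  have hsc : SMulCommClass A K N := IsScalarTower.to_smulCommClass'
  set ψ : N →ₗ[A] N := φ - c • (LinearMap.id : N →ₗ[A] N) with hψ
  have h0 : ψ v = 0 := by
    have h1 : φ v = c • v := hv.apply_eq_smul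
    rw [hψ, LinearMap.sub_apply, h1, LinearMap.smul_apply, LinearMap.id_apply, sub_self]
  have h2 : ψ = 0 := by
    by_contra hne
    have := h ψ hne
    exact hv.2 (this (h0.trans (map_zero ψ).symm))
  have h3 := LinearMap.congr_fun h2 x
  rw [hψ, LinearMap.sub_apply, LinearMap.smul_apply, LinearMap.id_apply, LinearMap.zero_apply,
    sub_eq_zero] at h3
  exact h3

lemma isBr_of_simple [IsAlgClosed K] [FiniteDimensional K N] (h : IsSimpleModule A N) :
    IsBr K A N := by
  have := IsSimpleModule.nontrivial A N
  refine isBr_of_inj fun φ hφ => ?_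
  rcases LinearMap.injective_or_eq_zero φ with h1 | h1
  · exact h1
  · exact absurd h1 hφ

/-- a nonzero endomorphism of a brick is bijective -/
lemma IsBr.injective (h : IsBr K A N) {φ : N →ₗ[A] N} (hφ : φ ≠ 0) : Function.Injective φ := by
  obtain ⟨c, hc⟩ := h φ
  have hc0 : c ≠ 0 := by
    rintro rfl
    apply hφ
    ext x
    rw [hc, zero_smul, LinearMap.zero_apply]
  intro x y hxy
  rw [hc, hc] at hxy
  exact smul_right_injective N hc0 hxy

/-- a brick which is a quotient and a submodule -/
lemma exists_brick [IsAlgClosed K] (X : Type) [AddCommGroup X] [Module K X] [Module A X]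
    [IsScalarTower K A X] [FiniteDimensional K X] [Nontrivial X] :
    ∃ B : Submodule A X, B ≠ ⊥ ∧ IsBr K A B ∧ ∃ φ : X →ₗ[A] B, Function.Surjective φ := by
  classical
  have hex : ∃ n : ℕ, ∃ φ : X →ₗ[A] X, φ ≠ 0 ∧ finrank K (LinearMap.range φ) = n :=
    ⟨_, LinearMap.id, by
      intro h
      obtain ⟨x, hx⟩ := exists_ne (0 : X)
      exact hx (LinearMap.congr_fun h x), rfl⟩
  obtain ⟨φ, hφ, hn⟩ := Nat.find_spec hex
  have hmin : ∀ ψ : X →ₗ[A] X, ψ ≠ 0 →
      finrank K (LinearMap.range φ) ≤ finrank K (LinearMap.range ψ) := by
    intro ψ hψ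
    rw [hn]
    exact Nat.find_min' hex ⟨ψ, hψ, rfl⟩
  refine ⟨LinearMap.range φ, ?_, ?_, φ.rangeRestrict, LinearMap.surjective_rangeRestrict φ⟩
  · intro h
    exact hφ (LinearMap.range_eq_bot.1 h)
  · have hnt : Nontrivial (LinearMap.range φ) := by
      rw [Submodule.nontrivial_iff_ne_bot]
      intro h
      exact hφ (LinearMap.range_eq_bot.1 h)
    refine isBr_of_inj fun ψ hψ => ?_
    set θ : X →ₗ[A] X := (LinearMap.range φ).subtype.comp (ψ.comp φ.rangeRestrict) with hθ
    have hθ0 : θ ≠ 0 := by
      intro h
      apply hψ
      ext y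
      obtain ⟨x, rfl⟩ := LinearMap.surjective_rangeRestrict φ y
      have := LinearMap.congr_fun h x
      exact this
    have h1 := hmin θ hθ0
    -- the range of `θ` is the image of the range of `ψ`
    have h2 : LinearMap.range θ = (LinearMap.range ψ).map (LinearMap.range φ).subtype := by
      rw [hθ, LinearMap.range_comp, LinearMap.range_comp,
        LinearMap.range_eq_top.2 (LinearMap.surjective_rangeRestrict φ), Submodule.map_top]
    have h3 : finrank K (LinearMap.range θ) = finrank K (LinearMap.range ψ) := by
      rw [h2]
      exact ((Submodule.equivMapOfInjective _ (LinearMap.range φ).injective_subtype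
        (LinearMap.range ψ)).restrictScalars K).finrank_eq.symm
    have h4 : Function.Surjective ψ := by
      have h5 : finrank K (LinearMap.range (ψ.restrictScalars K)) =
          finrank K (LinearMap.range φ) := by
        apply le_antisymm (Submodule.finrank_le _)
        rw [h3] at h1
        exact h1
      have h6 := Submodule.eq_top_of_finrank_eq h5
      intro y
      have h7 : y ∈ LinearMap.range (ψ.restrictScalars K) := by
        rw [h6]
        trivial
      exact h7
    exact (LinearMap.injective_iff_surjective (f := ψ.restrictScalars K)).2 h4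

end rep

end Pool.Agent.H29.SB
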