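import Pool.Agent.H29.SB.Rep

/-!
# Stable bricks: a finite list of small bricks, composition vectors
-/

set_option autoImplicit false
set_option linter.unusedSectionVars false

namespace Pool.Agent.H29.SB

open Module

section

variable (K : Type) [Field K] (A : Type) [Ring A] [Algebra K A]

/-- a finite list containing all bricks of dimension less than `d` -/
structure Reps (d : ℕ) where
  S : Type
  fin : Fintype S
  n : S → ℕ
  g : ∀ s, A →ₐ[K] Module.End K (Fin (n s) → K)
  all : ∀ (N : Type) [AddCommGroup N] [Module K N] [Module A N] [IsScalarTower K A N]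
    [FiniteDimensional K N], IsBr K A N → finrank K N < d → ∃ s, Nonempty (Md (g s) ≃ₗ[A] N)

attribute [instance] Reps.fin

variable {K A}

lemma Iso.refl' {d : ℕ} (f : A →ₐ[K] Module.End K (Fin d → K)) : Iso f f :=
  ⟨LinearEquiv.refl K _, fun _ _ => rfl⟩

lemma Iso.symm' {d : ℕ} {f g : A →ₐ[K] Module.End K (Fin d → K)} (h : Iso f g) : Iso g f := by
  rw [iso_iff] at h ⊢
  obtain ⟨e⟩ := h
  exact ⟨e.symm⟩

lemma Iso.trans' {d : ℕ} {f g h : A →ₐ[K] Module.End K (Fin d → K)} (h1 : Iso f g)
    (h2 : Iso g h) : Iso f h := by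
  rw [iso_iff] at h1 h2 ⊢
  obtain ⟨e⟩ := h1
  obtain ⟨e'⟩ := h2
  exact ⟨e.trans e'⟩

/-- isomorphism of bricks -/
def brSetoid (K : Type) [Field K] (A : Type) [Ring A] [Algebra K A] (d : ℕ) :
    Setoid {f : A →ₐ[K] Module.End K (Fin d → K) // Brick f} where
  r f g := Iso f.1 g.1
  iseqv := ⟨fun f => Iso.refl' f.1, fun h => Iso.symm' h, fun h h' => Iso.trans' h h'⟩

lemma finite_quot {d : ℕ} (h : ¬ ManyBricks K A d) : Finite (Quotient (brSetoid K A d)) := by
  by_contra hinf
  rw [not_finite_iff_infinite] at hinf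
  apply h
  let em := Infinite.natEmbedding (Quotient (brSetoid K A d))
  refine ⟨fun i => (em i).out.1, fun i j hij hiso => ?_, fun i => (em i).out.2⟩
  apply hij
  apply em.injective
  have h1 : (⟦(em i).out⟧ : Quotient (brSetoid K A d)) = ⟦(em j).out⟧ := Quotient.sound hiso
  rwa [Quotient.out_eq, Quotient.out_eq] at h1

lemma exists_reps {d : ℕ} (h : ∀ d' < d, ¬ ManyBricks K A d') : Nonempty (Reps K A d) := by
  classical
  have hf : ∀ d' : Fin d, Finite (Quotient (brSetoid K A d')) := fun d' => finite_quot (h d' d'.2)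
  have hfs : Finite (Σ d' : Fin d, Quotient (brSetoid K A d')) := inferInstance
  refine ⟨{ S := Σ d' : Fin d, Quotient (brSetoid K A d')
            fin := Fintype.ofFinite _
            n := fun s => s.1
            g := fun s => s.2.out.1
            all := ?_ }⟩
  intro N _ _ _ _ _ hN hd
  obtain ⟨f, ⟨e⟩⟩ := exists_rep (K := K) (A := A) N rfl
  have hb : Brick f := brick_iff.2 (hN.congr e.symm)
  refine ⟨⟨⟨finrank K N, hd⟩, Quotient.mk (brSetoid K A (finrank K N)) ⟨f, hb⟩⟩, ?_⟩
  have h1 : Iso (Quotient.mk (brSetoid K A (finrank K N)) ⟨f, hb⟩).out.1 f :=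
    Quotient.mk_out (s := brSetoid K A (finrank K N)) ⟨f, hb⟩
  obtain ⟨e'⟩ := iso_iff.1 h1
  exact ⟨e'.trans e⟩

variable {d : ℕ} (R : Reps K A d)

/-- `v` describes the dimensions of `e N` -/
def Comp (N : Type) [AddCommGroup N] [Module K N] [Module A N] [IsScalarTower K A N]
    (v : R.S → ℕ) : Prop :=
  (∀ s, v s ≤ finrank K N) ∧ ∀ e : A, IsIdempotentElem e →
    dimE K N e = ∑ s, v s * dimE K (Md (R.g s)) e

lemma exists_comp_of_sub {N : Type} [AddCommGroup N] [Module K N] [Module A N]
    [IsScalarTower K A N] [FiniteDimensional K N] (W : Submodule A N) {v v' : R.S → ℕ}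
    (h : Comp R W v) (h' : Comp R (N ⧸ W) v') : Comp R N (v + v') := by
  refine ⟨fun s => ?_, fun e he => ?_⟩
  · rw [finrank_sub_quot K W, Pi.add_apply]
    exact add_le_add (h.1 s) (h'.1 s)
  · rw [dimE_add K W e he, h.2 e he, h'.2 e he, ← Finset.sum_add_distrib]
    refine Finset.sum_congr rfl fun s _ => ?_
    rw [Pi.add_apply, add_mul]

lemma comp_zero {N : Type} [AddCommGroup N] [Module K N] [Module A N]
    [IsScalarTower K A N] [FiniteDimensional K N] (h : finrank K N = 0) :
    Comp R N (fun _ => 0) := by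
  refine ⟨fun s => Nat.zero_le _, fun e _ => ?_⟩
  have := dimE_le K (N := N) e
  simp only [zero_mul, Finset.sum_const_zero]
  omega

lemma comp_single {N : Type} [AddCommGroup N] [Module K N] [Module A N] [DecidableEq R.S]
    [IsScalarTower K A N] [FiniteDimensional K N] {s : R.S} (e : Md (R.g s) ≃ₗ[A] N)
    (h : 0 < finrank K N) : Comp R N (Pi.single s 1) := by
  refine ⟨fun t => ?_, fun a _ => ?_⟩
  · rcases eq_or_ne t s with rfl | hts
    · rw [Pi.single_eq_same]
      exact h
    · rw [Pi.single_eq_of_ne hts]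
      exact Nat.zero_le _
  · rw [← dimE_congr K e a, Finset.sum_eq_single s]
    · rw [Pi.single_eq_same, one_mul]
    · intro t _ hts
      rw [Pi.single_eq_of_ne hts, zero_mul]
    · intro hs
      exact absurd (Finset.mem_univ s) hs

lemma exists_comp [IsAlgClosed K] : ∀ (n : ℕ), n < d → ∀ (N : Type) [AddCommGroup N] [Module K N]
    [Module A N] [IsScalarTower K A N] [FiniteDimensional K N], finrank K N = n →
    ∃ v, Comp R N v := by
  classical
  intro n
  induction n using Nat.strong_induction_on with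
  | _ n ih =>
    intro hnd N _ _ _ _ _ hn
    rcases Nat.eq_zero_or_pos n with h0 | h0
    · exact ⟨_, comp_zero R (by omega)⟩
    · have hnt : Nontrivial N := Module.nontrivial_of_finrank_pos (R := K) (by omega)
      have hart : IsArtinian A N := isArtinian_of_tower K inferInstance
      obtain ⟨W, hW, -⟩ := (IsAtomic.eq_bot_or_exists_atom_le (⊤ : Submodule A N)).resolve_left
        top_ne_bot
      have hs : IsSimpleModule A W := isSimpleModule_iff_isAtom.2 hW
      have hWnt := IsSimpleModule.nontrivial A W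
      have hWpos : 0 < finrank K W := finrank_pos
      have hsum := finrank_sub_quot K W
      have hWb : IsBr K A W := isBr_of_simple hs
      obtain ⟨s, ⟨e⟩⟩ := R.all W hWb (by omega)
      obtain ⟨v', hv'⟩ := ih (finrank K (N ⧸ W)) (by omega) (by omega) (N ⧸ W) rfl
      exact ⟨_, exists_comp_of_sub R W (comp_single R e hWpos) hv'⟩

end

end Pool.Agent.H29.SB
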