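import Pool.Agent.H29.SB.Bridge

/-!
# Stable bricks: families with small self-extensions (MP_e14618_al)
-/

set_option autoImplicit false

namespace Pool.Agent.Results.MP_e14618_al.SmallSelfExtensions

open Pool.Agent.H29.SB.Spec

/-- Let `A` be a finite dimensional algebra over an algebraically closed field, `B` a quotient of
`A`, `d` the smallest dimension in which `B` has infinitely many bricks. If infinitely many of the
bricks `M` of dimension `d` have `hom (M, τ M) ≤ 1` or `hom (τ⁻¹ M, M) ≤ 1` then some weight of
`A` has infinitely many stable modules of one dimension. -/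
theorem result : ∀ (K : Type) [Field K] [IsAlgClosed K] (A : Type) [Ring A] [Algebra K A]
    [FiniteDimensional K A] (B : Type) [Ring B] [Algebra K B] (π : A →ₐ[K] B),
    Function.Surjective π → ∀ (d : ℕ) (f : ℕ → Rep K B d),
    (∀ i j : ℕ, i ≠ j → ¬ Iso (f i) (f j)) → (∀ i : ℕ, Brick (f i)) →
    (∀ i : ℕ, ELe (mat (f i)) ∨ ELe (matT (f i))) →
    (∀ d' < d, ¬ ManyBricks K B d') → StableFamily K A :=
  fun _ _ _ _ _ _ _ _ _ _ π hπ _ f hf hb hE hmin =>
    Pool.Agent.H29.SB.Bridge.main π hπ f hf hb hE hmin

end Pool.Agent.Results.MP_e14618_al.SmallSelfExtensions
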